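import Pool.Agent.Lib.MP_f76da2_an.RealCase

/-!
# From a list of zeros to the conclusion; the case of real `w^2`
-/

set_option autoImplicit false

namespace Pool.Agent.Lib.MP_f76da2_an

open Finset

/-- The polynomial `P_n(z, w) = ∑ C(n,k) z^k w^(k(n-k))` in `z`. -/
noncomputable def P (n : ℕ) (w : ℂ) : Polynomial ℂ :=
  ∑ k ∈ range (n + 1),
    Polynomial.C ((n.choose k : ℂ) * w ^ (k * (n - k))) * Polynomial.X ^ k

/-- All `n` zeros of `P_n(·, w)` are simple and, in every enumeration with nondecreasing moduli,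
consecutive moduli are separated by a factor of at least `|w|^2`. -/
def Separated (n : ℕ) (w : ℂ) : Prop :=
  (P n w).roots.card = n ∧ (P n w).roots.Nodup ∧
    ∀ z : Fin n → ℂ, Multiset.map z univ.val = (P n w).roots →
      (∀ i j, i ≤ j → ‖z i‖ ≤ ‖z j‖) →
        ∀ i j : Fin n, (i : ℕ) + 1 = j → ‖w‖ ^ 2 * ‖z i‖ ≤ ‖z j‖

theorem P_eval (n : ℕ) (w z : ℂ) :
    (P n w).eval z = ∑ k ∈ range (n + 1), (n.choose k : ℂ) * w ^ (k * (n - k)) * z ^ k := by
  unfold P
  rw [Polynomial.eval_finset_sum]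
  refine sum_congr rfl fun k _ => ?_
  simp

theorem P_natDegree (n : ℕ) (w : ℂ) : (P n w).natDegree ≤ n := by
  unfold P
  refine Polynomial.natDegree_sum_le_of_forall_le _ _ fun k hk => ?_
  refine (Polynomial.natDegree_C_mul_X_pow_le _ _).trans ?_
  have := mem_range.1 hk
  omega

theorem P_ne_zero (n : ℕ) (w : ℂ) : P n w ≠ 0 := by
  intro h
  have h1 : (P n w).eval 0 = 1 := by
    rw [P_eval, sum_range_succ']
    simp
  rw [h] at h1
  simp at h1

theorem T_inv_sq {w : ℂ} (hw : w ≠ 0) (k : ℕ) : T ((w ^ 2)⁻¹) k * w ^ (k * (k + 1)) = 1 := by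
  induction k with
  | zero => simp
  | succ k ih =>
    rw [T_succ, inv_pow, ← pow_mul]
    have h1 : w ^ ((k + 1) * (k + 1 + 1)) = w ^ (k * (k + 1)) * w ^ (2 * (k + 1)) := by
      rw [← pow_add]
      congr 1
      ring
    rw [h1]
    have h2 : w ^ (2 * (k + 1)) ≠ 0 := pow_ne_zero _ hw
    calc T ((w ^ 2)⁻¹) k * (w ^ (2 * (k + 1)))⁻¹ * (w ^ (k * (k + 1)) * w ^ (2 * (k + 1)))
        = T ((w ^ 2)⁻¹) k * w ^ (k * (k + 1)) * ((w ^ (2 * (k + 1)))⁻¹ * w ^ (2 * (k + 1))) := by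
          ring
      _ = 1 := by rw [ih, inv_mul_cancel₀ h2, one_mul]

theorem P_eval_eq_phi (n : ℕ) {w : ℂ} (hw : w ≠ 0) (z : ℂ) :
    (P n w).eval z = phi n ((w ^ 2)⁻¹) (-(z * w ^ (n + 1))) := by
  rw [P_eval]
  unfold phi
  refine sum_congr rfl fun k hk => ?_
  have hk' : k ≤ n := by have := mem_range.1 hk; omega
  have h1 : w ^ ((n + 1) * k) = w ^ (k * (n - k)) * w ^ (k * (k + 1)) := by
    rw [← pow_add]
    congr 1
    obtain ⟨m, rfl⟩ := Nat.exists_eq_add_of_le hk'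
    rw [Nat.add_sub_cancel_left]
    ring
  rw [neg_neg, mul_pow, ← pow_mul, h1]
  have h2 := T_inv_sq hw k
  calc (n.choose k : ℂ) * w ^ (k * (n - k)) * z ^ k
      = (n.choose k : ℂ) * w ^ (k * (n - k)) * z ^ k * (T ((w ^ 2)⁻¹) k * w ^ (k * (k + 1))) := by
        rw [h2, mul_one]
    _ = _ := by ring

theorem P_eval_inv (n : ℕ) (w : ℂ) {z : ℂ} (hz : z ≠ 0) (h : (P n w).eval z = 0) :
    (P n w).eval z⁻¹ = 0 := by
  have h1 : z ^ n * (P n w).eval z⁻¹ = (P n w).eval z := by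
    rw [P_eval, P_eval, mul_sum, ← sum_range_reflect]
    refine sum_congr rfl fun k hk => ?_
    have hk' : k ≤ n := by have := mem_range.1 hk; omega
    rw [show n + 1 - 1 - k = n - k by omega, Nat.choose_symm hk', Nat.sub_sub_self hk',
      mul_comm (n - k) k, inv_pow]
    have h2 : z ^ n = z ^ k * z ^ (n - k) := by rw [← pow_add]; congr 1; omega
    rw [h2]
    have h3 : z ^ (n - k) ≠ 0 := pow_ne_zero _ hz
    field_simp
  rw [h] at h1
  exact (mul_eq_zero.1 h1).resolve_left (pow_ne_zero _ hz)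

theorem separated_of_zeros {n : ℕ} {w : ℂ} (hw : 1 < ‖w‖) (y : ℕ → ℂ)
    (hy0 : ∀ i < n, y i ≠ 0) (hroot : ∀ i < n, (P n w).eval (y i) = 0)
    (hsep : ∀ i, i + 1 < n → ‖w‖ ^ 2 * ‖y i‖ ≤ ‖y (i + 1)‖) : Separated n w := by
  have hw2 : 1 < ‖w‖ ^ 2 := by nlinarith
  have hpos : ∀ i < n, 0 < ‖y i‖ := fun i hi => norm_pos_iff.2 (hy0 i hi)
  have hsep' : ∀ i j, i < j → j < n → ‖w‖ ^ 2 * ‖y i‖ ≤ ‖y j‖ := by
    intro i j hij
    induction j, hij using Nat.le_induction with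
    | base => intro h; exact hsep i h
    | succ j hj ih =>
      intro h
      have h1 := ih (by omega)
      have h2 := hsep j h
      have h3 := hpos j (by omega)
      nlinarith
  have hlt : ∀ i j, i < j → j < n → ‖y i‖ < ‖y j‖ := by
    intro i j hij hj
    have h1 := hsep' i j hij hj
    have h2 := hpos i (by omega)
    nlinarith
  have hinj : ∀ i < n, ∀ j < n, y i = y j → i = j := by
    intro i hi j hj hij
    by_contra hne
    rcases Nat.lt_or_gt_of_ne hne with h | h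
    · exact absurd (congrArg norm hij) (hlt i j h hj).ne
    · exact absurd (congrArg norm hij) (hlt j i h hi).ne'
  have hnodup : (Multiset.map y (range n).val).Nodup := by
    refine Multiset.Nodup.map_on ?_ (range n).nodup
    intro i hi j hj hij
    exact hinj i (mem_range.1 hi) j (mem_range.1 hj) hij
  have hle : Multiset.map y (range n).val ≤ (P n w).roots := by
    rw [Multiset.le_iff_subset hnodup]
    intro x hx
    obtain ⟨i, hi, rfl⟩ := Multiset.mem_map.1 hx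
    exact (Polynomial.mem_roots (P_ne_zero n w)).2 (hroot i (mem_range.1 hi))
  have hcard : (P n w).roots.card ≤ (Multiset.map y (range n).val).card := by
    rw [Multiset.card_map, card_val, card_range]
    exact (Polynomial.card_roots' _).trans (P_natDegree n w)
  have heq : Multiset.map y (range n).val = (P n w).roots := Multiset.eq_of_le_of_card_le hle hcard
  refine ⟨by rw [← heq, Multiset.card_map, card_val, card_range], heq ▸ hnodup, ?_⟩
  intro z hz hmono i j hij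
  have hzmem : ∀ i, ∃ a < n, z i = y a := by
    intro i
    have h1 : z i ∈ (P n w).roots := by
      rw [← hz]
      exact Multiset.mem_map_of_mem _ (mem_univ i)
    rw [← heq] at h1
    obtain ⟨a, ha, hay⟩ := Multiset.mem_map.1 h1
    exact ⟨a, mem_range.1 ha, hay.symm⟩
  have hzinj : z i = z j → i = j := by
    intro h
    have h1 : (Multiset.map z univ.val).Nodup := by rw [hz, ← heq]; exact hnodup
    exact Multiset.inj_on_of_nodup_map h1 i (mem_univ i) j (mem_univ j) h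
  obtain ⟨a, ha, hza⟩ := hzmem i
  obtain ⟨b, hb, hzb⟩ := hzmem j
  have hab : a ≠ b := by
    rintro rfl
    have := hzinj (hza.trans hzb.symm)
    rw [this] at hij
    omega
  rcases Nat.lt_or_gt_of_ne hab with h | h
  · rw [hza, hzb]
    exact hsep' a b h hb
  · exfalso
    have h1 := hlt b a h ha
    have h2 := hmono i j (by rw [Fin.le_def]; omega)
    rw [hza, hzb] at h2
    linarith

theorem T_ofReal (t : ℝ) (m : ℕ) : T (t : ℂ) m = ((T t m : ℝ) : ℂ) := by
  induction m with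
  | zero => simp
  | succ m ih => rw [T_succ, T_succ, ih]; push_cast; ring

theorem phi_ofReal (n : ℕ) (t u : ℝ) : phi n (t : ℂ) (u : ℂ) = ((phi n t u : ℝ) : ℂ) := by
  unfold phi
  push_cast
  refine sum_congr rfl fun k _ => ?_
  rw [T_ofReal]

/-- **All `w` with `w^2` real.** -/
theorem separated_real {n : ℕ} {w : ℂ} (hw : 1 < ‖w‖) (him : (w ^ 2).im = 0) :
    Separated n w := by
  have hw0 : w ≠ 0 := by
    rintro rfl
    simp at hw
    linarith
  have hwr : w ^ 2 = (((w ^ 2).re : ℝ) : ℂ) := by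
    apply Complex.ext
    · simp
    · rw [him]; simp
  set t : ℝ := ((w ^ 2).re)⁻¹ with ht
  have htc : (w ^ 2)⁻¹ = (t : ℂ) := by rw [ht]; push_cast; rw [← hwr]
  have hnt : |t| = (‖w‖ ^ 2)⁻¹ := by
    rw [← norm_pow, ← norm_inv, htc, Complex.norm_real, Real.norm_eq_abs]
  have hw2 : 1 < ‖w‖ ^ 2 := by nlinarith
  have ht0 : t ≠ 0 := by
    intro h
    rw [h, abs_zero] at hnt
    have : (‖w‖ ^ 2)⁻¹ ≠ 0 := by positivity
    exact this hnt.symm
  have ht1 : |t| < 1 := by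
    rw [hnt]
    exact inv_lt_one_of_one_lt₀ hw2
  obtain ⟨ρ, hpos, hmono, hprod⟩ := real_roots ht0 ht1 n
  have hwn : w ^ (n + 1) ≠ 0 := pow_ne_zero _ hw0
  refine separated_of_zeros hw
    (fun i => -((ρ i * t ^ (-(i : ℤ) - 1) : ℝ) : ℂ) / w ^ (n + 1)) ?_ ?_ ?_
  · intro i hi
    refine div_ne_zero (neg_ne_zero.2 ?_) hwn
    exact Complex.ofReal_ne_zero.2 (mul_ne_zero (hpos i hi).ne' (zpow_ne_zero _ ht0))
  · intro i hi
    rw [P_eval_eq_phi n hw0, htc, div_mul_cancel₀ _ hwn, neg_neg, phi_ofReal,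
      Complex.ofReal_eq_zero, hprod]
    refine prod_eq_zero (mem_range.2 hi) ?_
    rw [show (-(i : ℤ) - 1) = -((i + 1 : ℕ) : ℤ) by push_cast; ring, zpow_neg, zpow_natCast]
    have h1 : t ^ (i + 1) ≠ 0 := pow_ne_zero _ ht0
    have h2 := (hpos i hi).ne'
    field_simp
    ring
  · intro i hi
    simp only [norm_div, norm_neg, Complex.norm_real, Real.norm_eq_abs, abs_mul, abs_zpow]
    rw [abs_of_pos (hpos i (by omega)), abs_of_pos (hpos (i + 1) hi), hnt]
    have h1 : 0 < ‖w ^ (n + 1)‖ := norm_pos_iff.2 hwn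
    rw [← mul_div_assoc]
    refine div_le_div_of_nonneg_right ?_ h1.le
    have h2 : (‖w‖ ^ 2)⁻¹ ^ (-((i + 1 : ℕ) : ℤ) - 1) =
        ‖w‖ ^ 2 * (‖w‖ ^ 2)⁻¹ ^ (-(i : ℤ) - 1) := by
      rw [inv_zpow', inv_zpow', ← zpow_one_add₀ (by positivity)]
      congr 1
      push_cast
      ring
    rw [h2]
    have h3 := (hmono i (i + 1) (by omega) hi).le
    have h4 : 0 ≤ ‖w‖ ^ 2 * (‖w‖ ^ 2)⁻¹ ^ (-(i : ℤ) - 1) := by positivity
    calc ‖w‖ ^ 2 * (ρ i * (‖w‖ ^ 2)⁻¹ ^ (-(i : ℤ) - 1))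
        = ρ i * (‖w‖ ^ 2 * (‖w‖ ^ 2)⁻¹ ^ (-(i : ℤ) - 1)) := by ring
      _ ≤ _ := mul_le_mul_of_nonneg_right h3 h4

end Pool.Agent.Lib.MP_f76da2_an
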