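import Mathlib

/-!
# The polynomials `P_n(z, w) = ∑ C(n,k) z^k w^(k(n-k))`: normal form, recurrence

With `t = w⁻²` and `u = - z w^(n+1)` one has `P_n(z, w) = phi n t u`, where
`phi n t u = ∑ C(n,k) t^(k(k+1)/2) (-u)^k`.
-/

set_option autoImplicit false

namespace Pool.Agent.Lib.MP_f76da2_an

open Finset

section

variable {K : Type*} [Field K]

/-- The powers `t^(m(m+1)/2)`. -/
def T (t : K) : ℕ → K
  | 0 => 1
  | m + 1 => T t m * t ^ (m + 1)

@[simp] theorem T_zero (t : K) : T t 0 = 1 := rfl

theorem T_succ (t : K) (m : ℕ) : T t (m + 1) = T t m * t ^ (m + 1) := rfl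

/-- The normal form. -/
def phi (n : ℕ) (t u : K) : K := ∑ k ∈ range (n + 1), (n.choose k : K) * T t k * (-u) ^ k

theorem T_ne_zero {t : K} (ht : t ≠ 0) (m : ℕ) : T t m ≠ 0 := by
  induction m with
  | zero => simp
  | succ m ih => rw [T_succ]; exact mul_ne_zero ih (pow_ne_zero _ ht)

theorem T_add (t : K) (a m : ℕ) : T t (a + m) = T t a * T t m * t ^ (a * m) := by
  induction m with
  | zero => simp
  | succ m ih =>
    rw [← add_assoc, T_succ, ih, T_succ]
    ring

theorem T_sub (t : K) (m j : ℕ) : T t j * t ^ ((j + 1 + m) * (m + 1)) = T t (j + 1 + m) * T t m := by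
  induction m generalizing j with
  | zero => simp [T_succ]
  | succ m ih =>
    have h := ih (j + 1)
    rw [show j + 1 + 1 + m = j + 1 + (m + 1) by ring] at h
    rw [T_succ t m, ← mul_assoc, ← h, T_succ]
    ring

theorem phi_zero (t u : K) : phi 0 t u = 1 := by simp [phi]

theorem phi_at_zero (n : ℕ) (t : K) : phi n t 0 = 1 := by
  unfold phi
  rw [sum_range_succ']
  simp

theorem phi_succ (n : ℕ) (t u : K) :
    phi (n + 1) t u = phi n t u - t * u * phi n t (t * u) := by
  have h1 : phi n t u = ∑ k ∈ range (n + 2), (n.choose k : K) * T t k * (-u) ^ k := by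
    rw [sum_range_succ _ (n + 1)]
    simp [phi]
  rw [h1]
  unfold phi
  rw [sum_range_succ' _ (n + 1), sum_range_succ' _ (n + 1), mul_sum]
  have h2 : ∀ k ∈ range (n + 1), (((n + 1).choose (k + 1) : ℕ) : K) * T t (k + 1) * (-u) ^ (k + 1) =
      ((n.choose (k + 1) : ℕ) : K) * T t (k + 1) * (-u) ^ (k + 1) -
        t * u * (((n.choose k : ℕ) : K) * T t k * (-(t * u)) ^ k) := by
    intro k _
    rw [Nat.choose_succ_succ, T_succ]
    push_cast
    rw [show -(t * u) = t * (-u) by ring, mul_pow]
    ring
  rw [sum_congr rfl h2, sum_sub_distrib]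
  simp
  ring

/-- The polynomial with values `phi`. -/
noncomputable def phiPoly (n : ℕ) (t : K) : Polynomial K :=
  ∑ k ∈ range (n + 1), Polynomial.C ((n.choose k : K) * T t k * (-1) ^ k) * Polynomial.X ^ k

theorem phiPoly_eval (n : ℕ) (t u : K) : (phiPoly n t).eval u = phi n t u := by
  unfold phiPoly phi
  rw [Polynomial.eval_finset_sum]
  refine sum_congr rfl fun k _ => ?_
  simp only [Polynomial.eval_mul, Polynomial.eval_C, Polynomial.eval_pow, Polynomial.eval_X]
  rw [neg_pow u]
  ring

theorem phiPoly_natDegree (n : ℕ) (t : K) : (phiPoly n t).natDegree ≤ n := by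
  unfold phiPoly
  refine Polynomial.natDegree_sum_le_of_forall_le _ _ fun k hk => ?_
  refine (Polynomial.natDegree_C_mul_X_pow_le _ _).trans ?_
  have := mem_range.1 hk
  omega

theorem prod_form (p : Polynomial K) (n : ℕ) (hdeg : p.natDegree ≤ n) (h0 : p.eval 0 = 1)
    (u : ℕ → K) (hu0 : ∀ i < n, u i ≠ 0) (hinj : ∀ i < n, ∀ j < n, u i = u j → i = j)
    (hroot : ∀ i < n, p.eval (u i) = 0) (x : K) : p.eval x = ∏ i ∈ range n, (1 - x / u i) := by
  classical
  set q : Polynomial K := ∏ i ∈ range n, (1 - Polynomial.C (u i)⁻¹ * Polynomial.X) with hq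
  have hqe : ∀ y : K, q.eval y = ∏ i ∈ range n, (1 - y / u i) := by
    intro y
    rw [hq, Polynomial.eval_prod]
    refine prod_congr rfl fun i _ => ?_
    simp only [Polynomial.eval_sub, Polynomial.eval_one, Polynomial.eval_mul, Polynomial.eval_C,
      Polynomial.eval_X]
    rw [div_eq_inv_mul]
  have hqd : q.natDegree ≤ n := by
    rw [hq]
    refine (Polynomial.natDegree_prod_le _ _).trans ?_
    calc ∑ i ∈ range n, (1 - Polynomial.C (u i)⁻¹ * Polynomial.X : Polynomial K).natDegree
        ≤ ∑ i ∈ range n, 1 := by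
          refine sum_le_sum fun i _ => ?_
          refine (Polynomial.natDegree_sub_le _ _).trans ?_
          simp only [Polynomial.natDegree_one, zero_le, sup_of_le_right]
          exact (Polynomial.natDegree_C_mul_le _ _).trans Polynomial.natDegree_X_le
      _ = n := by simp
  have hpq : p - q = 0 := by
    refine Polynomial.eq_zero_of_natDegree_lt_card_of_eval_eq_zero' (p - q)
      (insert 0 ((range n).image u)) ?_ ?_
    · intro y hy
      rw [mem_insert, mem_image] at hy
      rw [Polynomial.eval_sub, hqe]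
      rcases hy with rfl | ⟨i, hi, rfl⟩
      · rw [h0]; simp
      · rw [hroot i (mem_range.1 hi), prod_eq_zero hi]
        · simp
        · rw [div_self (hu0 i (mem_range.1 hi)), sub_self]
    · have h3 : (insert 0 ((range n).image u)).card = n + 1 := by
        rw [card_insert_of_notMem, card_image_of_injOn, card_range]
        · intro i hi j hj hij
          exact hinj i (mem_range.1 (mem_coe.1 hi)) j (mem_range.1 (mem_coe.1 hj)) hij
        · intro h
          obtain ⟨i, hi, hi0⟩ := mem_image.1 h
          exact hu0 i (mem_range.1 hi) hi0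
      rw [h3]
      have := Polynomial.natDegree_sub_le p q
      have h4 : max p.natDegree q.natDegree ≤ n := max_le hdeg hqd
      omega
  rw [← hqe, sub_eq_zero.1 hpq]

end

end Pool.Agent.Lib.MP_f76da2_an
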