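import Pool.Agent.Lib.MP_f76da2_an.Local

/-!
# Estimates of the coefficients and the fixed point
-/

set_option autoImplicit false

namespace Pool.Agent.Lib.MP_f76da2_an

open Finset

section coeff

variable {a b : ℕ}

theorem ff_nonneg (a b i : ℕ) : 0 ≤ ff a b i := by unfold ff; positivity

theorem ff_le (ha : 1 ≤ a) (hb : 1 ≤ b) (i : ℕ) : ff a b i ≤ (a : ℝ) / (a + i) := by
  unfold ff
  have ha' : (0 : ℝ) < a := by exact_mod_cast ha
  have hb' : (0 : ℝ) < b := by exact_mod_cast hb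
  have h1 : ((b - i : ℕ) : ℝ) ≤ b := by exact_mod_cast Nat.sub_le b i
  have hi : (0 : ℝ) ≤ i := Nat.cast_nonneg i
  rw [div_le_div_iff₀ (by positivity) (by positivity)]
  calc (a : ℝ) * ((b - i : ℕ) : ℝ) * (a + i) ≤ a * b * (a + i) := by gcongr
    _ = a * (b * (a + i)) := by ring

theorem ff_le_one (ha : 1 ≤ a) (hb : 1 ≤ b) (i : ℕ) : ff a b i ≤ 1 := by
  refine (ff_le ha hb i).trans ?_
  have ha' : (0 : ℝ) < a := by exact_mod_cast ha
  have hi : (0 : ℝ) ≤ i := Nat.cast_nonneg i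
  rw [div_le_one (by positivity)]
  linarith

theorem ff_rev_le (ha : 1 ≤ a) (hb : 1 ≤ b) (i : ℕ) : ff b a i ≤ ((a - i : ℕ) : ℝ) / a := by
  unfold ff
  have ha' : (0 : ℝ) < a := by exact_mod_cast ha
  have hb' : (0 : ℝ) < b := by exact_mod_cast hb
  have hi : (0 : ℝ) ≤ i := Nat.cast_nonneg i
  have hj : (0 : ℝ) ≤ ((a - i : ℕ) : ℝ) := Nat.cast_nonneg _
  rw [div_le_div_iff₀ (by positivity) (by positivity)]
  nlinarith [mul_nonneg (mul_nonneg hj ha'.le) hi]

/-- Monotonicity and the size of the difference. -/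
theorem ff_sub (ha : 1 ≤ a) (hab : a ≤ b) (i : ℕ) :
    ff b a i ≤ ff a b i ∧ ff a b i - ff b a i ≤ (i : ℝ) / (a + i) := by
  have hb : 1 ≤ b := ha.trans hab
  have ha' : (0 : ℝ) < a := by exact_mod_cast ha
  have hb' : (0 : ℝ) < b := by exact_mod_cast hb
  have hab' : (a : ℝ) ≤ b := by exact_mod_cast hab
  have hi : (0 : ℝ) ≤ i := Nat.cast_nonneg i
  rcases Nat.lt_or_ge i a with h | h
  · have h1 : ((a - i : ℕ) : ℝ) = a - i := by rw [Nat.cast_sub h.le]
    have h2 : ((b - i : ℕ) : ℝ) = b - i := by rw [Nat.cast_sub (by omega)]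
    have h3 : (i : ℝ) < a := by exact_mod_cast h
    have e1 : ff b a i = b * (a - i) / (a * (b + i)) := by unfold ff; rw [h1]
    have e2 : ff a b i = a * (b - i) / (b * (a + i)) := by unfold ff; rw [h2]
    rw [e1, e2]
    constructor
    · rw [div_le_div_iff₀ (by positivity) (by positivity)]
      have : a * (b - i) * (a * (b + i)) - b * (a - i) * (b * (a + i)) =
          (i : ℝ) ^ 2 * (b ^ 2 - a ^ 2) := by ring
      have h4 : 0 ≤ (i : ℝ) ^ 2 * ((b : ℝ) ^ 2 - a ^ 2) := by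
        apply mul_nonneg (by positivity)
        nlinarith
      linarith
    · have h5 : a * (b - i) / (b * (a + i)) ≤ (a : ℝ) / (a + i) := by
        rw [div_le_div_iff₀ (by positivity) (by positivity)]
        have : 0 ≤ (a : ℝ) * i * (a + i) := by positivity
        nlinarith
      have h6 : ((a : ℝ) - i) / (a + i) ≤ b * (a - i) / (a * (b + i)) := by
        rw [div_le_div_iff₀ (by positivity) (by positivity)]
        have h7 : 0 ≤ ((a : ℝ) - i) * (i * (b - a)) := by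
          apply mul_nonneg (by linarith)
          apply mul_nonneg hi (by linarith)
        nlinarith
      have h8 : (a : ℝ) / (a + i) - (a - i) / (a + i) = i / (a + i) := by
        rw [← sub_div]; congr 1; ring
      linarith
  · have h1 : ff b a i = 0 := by unfold ff; rw [Nat.sub_eq_zero_of_le h]; simp
    rw [h1]
    refine ⟨ff_nonneg _ _ _, ?_⟩
    rw [sub_zero]
    refine (ff_le ha hb i).trans ?_
    have h3 : (a : ℝ) ≤ i := by exact_mod_cast h
    gcongr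

theorem kk_nonneg (a b m : ℕ) : 0 ≤ kk a b m := by
  induction m with
  | zero => simp [kk_zero]
  | succ m ih => rw [kk_succ]; exact mul_nonneg ih (ff_nonneg _ _ _)

theorem kk_le_one (ha : 1 ≤ a) (hb : 1 ≤ b) (m : ℕ) : kk a b m ≤ 1 := by
  induction m with
  | zero => simp [kk_zero]
  | succ m ih =>
    rw [kk_succ]
    exact mul_le_one₀ ih (ff_nonneg _ _ _) (ff_le_one ha hb _)

theorem kk_sub (ha : 1 ≤ a) (hab : a ≤ b) (m : ℕ) :
    kk b a m ≤ kk a b m ∧ kk a b m - kk b a m ≤ (1 / (2 * a)) * (m * (m + 1)) := by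
  have hb : 1 ≤ b := ha.trans hab
  have ha' : (0 : ℝ) < a := by exact_mod_cast ha
  induction m with
  | zero => simp [kk_zero]
  | succ m ih =>
    obtain ⟨h1, h2⟩ := ih
    obtain ⟨h3, h4⟩ := ff_sub ha hab (m + 1)
    rw [kk_succ, kk_succ]
    refine ⟨mul_le_mul h1 h3 (ff_nonneg _ _ _) (kk_nonneg _ _ _), ?_⟩
    have h5 : kk a b m * ff a b (m + 1) - kk b a m * ff b a (m + 1) =
        (kk a b m - kk b a m) * ff a b (m + 1) + kk b a m * (ff a b (m + 1) - ff b a (m + 1)) := by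
      ring
    rw [h5]
    have h6 : (kk a b m - kk b a m) * ff a b (m + 1) ≤ kk a b m - kk b a m :=
      mul_le_of_le_one_right (sub_nonneg.2 h1) (ff_le_one ha hb _)
    have h7 : kk b a m * (ff a b (m + 1) - ff b a (m + 1)) ≤ ff a b (m + 1) - ff b a (m + 1) :=
      mul_le_of_le_one_left (sub_nonneg.2 h3) (kk_le_one hb ha _)
    have h8 : ((m + 1 : ℕ) : ℝ) / (a + (m + 1 : ℕ)) ≤ ((m + 1 : ℕ) : ℝ) / a := by
      gcongr
      have : (0 : ℝ) ≤ ((m + 1 : ℕ) : ℝ) := by positivity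
      linarith
    have h9 : (1 / (2 * (a : ℝ))) * (((m + 1 : ℕ) : ℝ) * (((m + 1 : ℕ) : ℝ) + 1)) =
        (1 / (2 * (a : ℝ))) * (m * (m + 1)) + ((m + 1 : ℕ) : ℝ) / a := by
      push_cast
      field_simp
      ring
    linarith

/-- The coefficients of positive powers, against the radius. -/
theorem kk_pow (ha : 1 ≤ a) (hb : 1 ≤ b) (m : ℕ) :
    kk a b m * (1 + 1 / (2 * (a : ℝ))) ^ m ≤ 1 := by
  have ha' : (0 : ℝ) < a := by exact_mod_cast ha
  induction m with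
  | zero => simp [kk_zero]
  | succ m ih =>
    rw [kk_succ, pow_succ]
    have h1 : ff a b (m + 1) * (1 + 1 / (2 * (a : ℝ))) ≤ 1 := by
      have h2 := ff_le ha hb (m + 1)
      have h3 : (0 : ℝ) < a + (m + 1 : ℕ) := by positivity
      calc ff a b (m + 1) * (1 + 1 / (2 * (a : ℝ)))
          ≤ (a : ℝ) / (a + (m + 1 : ℕ)) * (1 + 1 / (2 * (a : ℝ))) := by gcongr
        _ = (a + 1 / 2) / (a + (m + 1 : ℕ)) := by field_simp
        _ ≤ 1 := by
          rw [div_le_one h3]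
          push_cast
          have : (0 : ℝ) ≤ m := Nat.cast_nonneg m
          linarith
    have h4 : kk a b m * ff a b (m + 1) * ((1 + 1 / (2 * (a : ℝ))) ^ m * (1 + 1 / (2 * (a : ℝ)))) =
        (kk a b m * (1 + 1 / (2 * (a : ℝ))) ^ m) * (ff a b (m + 1) * (1 + 1 / (2 * (a : ℝ)))) := by
      ring
    rw [h4]
    refine mul_le_one₀ ih ?_ h1
    exact mul_nonneg (ff_nonneg _ _ _) (by positivity)

/-- The coefficients of negative powers, against the radius. -/
theorem kk_rev_pow (ha : 1 ≤ a) (hb : 1 ≤ b) (m : ℕ) :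
    kk b a (m + 1) * (1 - 1 / (2 * (a : ℝ)))⁻¹ ^ (m + 2) ≤
      4 * (a : ℝ) * (a - 1) / (2 * a - 1) ^ 2 := by
  have ha' : (1 : ℝ) ≤ a := by exact_mod_cast ha
  have hr : (1 - 1 / (2 * (a : ℝ)))⁻¹ = 2 * a / (2 * a - 1) := by
    have h1 : (2 * (a : ℝ) - 1) ≠ 0 := by linarith
    have h2 : (a : ℝ) ≠ 0 := by linarith
    rw [inv_eq_iff_eq_inv, inv_div]
    field_simp
  rw [hr]
  have h0 : (0 : ℝ) < 2 * a - 1 := by linarith
  induction m with
  | zero =>
    rw [kk_succ, kk_zero, one_mul]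
    have h2 := ff_rev_le ha hb 1
    rw [Nat.cast_sub ha, Nat.cast_one] at h2
    calc ff b a (0 + 1) * (2 * (a : ℝ) / (2 * a - 1)) ^ (0 + 2)
        ≤ ((a : ℝ) - 1) / a * (2 * (a : ℝ) / (2 * a - 1)) ^ (0 + 2) := by gcongr
      _ = 4 * (a : ℝ) * (a - 1) / (2 * a - 1) ^ 2 := by
        have h3 : (a : ℝ) ≠ 0 := by linarith
        have h4 : (2 * (a : ℝ) - 1) ≠ 0 := h0.ne'
        rw [zero_add, div_pow, div_mul_div_comm, div_eq_div_iff (by positivity) (by positivity)]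
        ring
  | succ m ih =>
    rw [kk_succ, pow_succ]
    have h1 : ff b a (m + 1 + 1) * (2 * (a : ℝ) / (2 * a - 1)) ≤ 1 := by
      have h2 := ff_rev_le ha hb (m + 1 + 1)
      have h3 : ((a - (m + 1 + 1) : ℕ) : ℝ) ≤ a - 1 := by
        have : a - (m + 1 + 1) ≤ a - 1 := by omega
        have h4 : ((a - (m + 1 + 1) : ℕ) : ℝ) ≤ ((a - 1 : ℕ) : ℝ) := by exact_mod_cast this
        rwa [Nat.cast_sub ha, Nat.cast_one] at h4
      calc ff b a (m + 1 + 1) * (2 * (a : ℝ) / (2 * a - 1))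
          ≤ ((a : ℝ) - 1) / a * (2 * (a : ℝ) / (2 * a - 1)) := by
            gcongr
            exact h2.trans (by gcongr)
        _ = (2 * a - 2) / (2 * a - 1) := by
            have h5 : (a : ℝ) ≠ 0 := by linarith
            field_simp
        _ ≤ 1 := by
            rw [div_le_one h0]
            linarith
    calc kk b a (m + 1) * ff b a (m + 1 + 1) *
          ((2 * (a : ℝ) / (2 * a - 1)) ^ (m + 2) * (2 * (a : ℝ) / (2 * a - 1)))
        = (kk b a (m + 1) * (2 * (a : ℝ) / (2 * a - 1)) ^ (m + 2)) *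
            (ff b a (m + 1 + 1) * (2 * (a : ℝ) / (2 * a - 1))) := by ring
      _ ≤ kk b a (m + 1) * (2 * (a : ℝ) / (2 * a - 1)) ^ (m + 2) := by
          refine mul_le_of_le_one_right ?_ h1
          exact mul_nonneg (kk_nonneg _ _ _) (by positivity)
      _ ≤ _ := ih

theorem rev_bound_le_one (ha : 1 ≤ a) : 4 * (a : ℝ) * (a - 1) / (2 * a - 1) ^ 2 ≤ 1 := by
  have ha' : (1 : ℝ) ≤ a := by exact_mod_cast ha
  have h0 : (0 : ℝ) < (2 * a - 1) ^ 2 := by
    have : (0 : ℝ) < 2 * a - 1 := by linarith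
    positivity
  rw [div_le_one h0]
  nlinarith

/-- The Lipschitz coefficients. -/
noncomputable def Lc (a b m : ℕ) : ℝ :=
  (m + 2) * (kk a b (m + 1) * (1 + 1 / (2 * (a : ℝ))) ^ (m + 1)) +
    (m + 1) * (kk b a (m + 1) * (1 - 1 / (2 * (a : ℝ)))⁻¹ ^ (m + 2))

theorem Lc_nonneg (ha : 1 ≤ a) (b m : ℕ) : 0 ≤ Lc a b m := by
  unfold Lc
  have ha' : (1 : ℝ) ≤ a := by exact_mod_cast ha
  have h1 : 0 < 1 - 1 / (2 * (a : ℝ)) := by
    rw [sub_pos, div_lt_one (by linarith)]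
    linarith
  have := kk_nonneg a b (m + 1)
  have := kk_nonneg b a (m + 1)
  positivity

/-- The bounds of the terms. -/
noncomputable def Bd : ℕ → ℝ
  | 0 => 81 / 100
  | m + 1 => (11 / 64) * (1 / 32) ^ m

theorem T_real_bound (m : ℕ) :
    T (1 / 4 : ℝ) (m + 2) * ((m + 2) * (m + 3) + (2 * (m + 2) + 1)) ≤ (11 / 64) * (1 / 32) ^ m := by
  induction m with
  | zero => norm_num [T_succ]
  | succ m ih =>
    have h0 : 0 < T (1 / 4 : ℝ) (m + 2) := by
      have : ∀ j, 0 < T (1 / 4 : ℝ) j := by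
        intro j
        induction j with
        | zero => simp
        | succ j ihj => rw [T_succ]; positivity
      exact this _
    rw [show m + 1 + 2 = (m + 2) + 1 by ring, T_succ, pow_succ (1 / 32 : ℝ)]
    have h1 : (1 / 4 : ℝ) ^ (m + 2 + 1) ≤ 1 / 64 := by
      calc (1 / 4 : ℝ) ^ (m + 2 + 1) ≤ (1 / 4 : ℝ) ^ 3 :=
            pow_le_pow_of_le_one (by norm_num) (by norm_num) (by omega)
        _ = 1 / 64 := by norm_num
    have hm : (0 : ℝ) ≤ m := Nat.cast_nonneg m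
    push_cast
    have h2 : (1 / 4 : ℝ) ^ (m + 2 + 1) * (((m : ℝ) + 1 + 2) * (m + 1 + 3) + (2 * (m + 1 + 2) + 1))
        ≤ (1 / 32) * (((m : ℝ) + 2) * (m + 3) + (2 * (m + 2) + 1)) := by
      calc (1 / 4 : ℝ) ^ (m + 2 + 1) * (((m : ℝ) + 1 + 2) * (m + 1 + 3) + (2 * (m + 1 + 2) + 1))
          ≤ (1 / 64) * (((m : ℝ) + 1 + 2) * (m + 1 + 3) + (2 * (m + 1 + 2) + 1)) := by gcongr
        _ ≤ _ := by nlinarith
    nlinarith

/-- The bound of each term of the series. -/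
theorem term_bound (ha : 1 ≤ a) (hab : a ≤ b) (m : ℕ) :
    T (1 / 4 : ℝ) (m + 1) * ((kk a b (m + 1) - kk b a (m + 1)) + (1 / (2 * (a : ℝ))) * Lc a b m) ≤
      (1 / (2 * (a : ℝ))) * Bd m ∧ T (1 / 4 : ℝ) (m + 1) * Lc a b m ≤ Bd m := by
  have hb : 1 ≤ b := ha.trans hab
  have ha' : (1 : ℝ) ≤ a := by exact_mod_cast ha
  have hr : 0 < 1 / (2 * (a : ℝ)) := by positivity
  have hT : 0 ≤ T (1 / 4 : ℝ) (m + 1) := by
    have : ∀ j, 0 < T (1 / 4 : ℝ) j := by
      intro j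
      induction j with
      | zero => simp
      | succ j ihj => rw [T_succ]; positivity
    exact (this _).le
  have hd := (kk_sub ha hab (m + 1)).1
  suffices h : T (1 / 4 : ℝ) (m + 1) *
      ((kk a b (m + 1) - kk b a (m + 1)) + (1 / (2 * (a : ℝ))) * Lc a b m) ≤
      (1 / (2 * (a : ℝ))) * Bd m by
    refine ⟨h, ?_⟩
    have h1 : (1 / (2 * (a : ℝ))) * (T (1 / 4 : ℝ) (m + 1) * Lc a b m) ≤
        (1 / (2 * (a : ℝ))) * Bd m := by
      refine le_trans ?_ h
      have := mul_nonneg hT (sub_nonneg.2 hd)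
      nlinarith
    exact le_of_mul_le_mul_left h1 hr
  rcases m with _ | m
  · have hT1 : T (1 / 4 : ℝ) (0 + 1) = 1 / 4 := by norm_num [T_succ]
    rw [hT1]
    have h1 : kk a b (0 + 1) - kk b a (0 + 1) ≤ 1 / (a * (a + 1)) := by
      rw [kk_succ, kk_succ, kk_zero, kk_zero, one_mul, one_mul]
      have hb' : (1 : ℝ) ≤ b := by exact_mod_cast hb
      have hab' : (a : ℝ) ≤ b := by exact_mod_cast hab
      unfold ff
      rw [Nat.cast_sub (show 0 + 1 ≤ b from hb), Nat.cast_sub (show 0 + 1 ≤ a from ha)]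
      push_cast
      have e1 : (a : ℝ) * (b - 1) / (b * (a + 1)) -
          b * (a - 1) / (a * (b + 1)) =
          (b ^ 2 - a ^ 2) / (a * b * (a + 1) * (b + 1)) := by
        field_simp
        ring
      rw [e1, div_le_div_iff₀ (by positivity) (by positivity)]
      have : 0 ≤ (a : ℝ) * (a + 1) * (b + a ^ 2) := by positivity
      nlinarith
    have h2 : Lc a b 0 ≤ (2 * a + 1) / (a + 1) + 4 * (a : ℝ) * (a - 1) / (2 * a - 1) ^ 2 := by
      unfold Lc
      have h3 := kk_rev_pow ha hb 0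
      have h4 : kk a b (0 + 1) * (1 + 1 / (2 * (a : ℝ))) ^ (0 + 1) ≤ (a + 1 / 2) / (a + 1) := by
        rw [kk_succ, kk_zero, one_mul, zero_add, pow_one]
        have h5 := ff_le ha hb 1
        calc ff a b 1 * (1 + 1 / (2 * (a : ℝ))) ≤ (a : ℝ) / (a + (1 : ℕ)) *
              (1 + 1 / (2 * (a : ℝ))) := by gcongr
          _ = (a + 1 / 2) / (a + 1) := by push_cast; field_simp
      have h6 : (2 * (a : ℝ) + 1) / (a + 1) = 2 * ((a + 1 / 2) / (a + 1)) := by
        field_simp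
      rw [h6]
      push_cast at h3 h4 ⊢
      linarith
    have h3 : 1 / ((a : ℝ) * (a + 1)) = (1 / (2 * (a : ℝ))) * (2 / (a + 1)) := by field_simp
    have h4 : 2 / ((a : ℝ) + 1) + ((2 * a + 1) / (a + 1) + 4 * (a : ℝ) * (a - 1) / (2 * a - 1) ^ 2)
        ≤ 81 / 25 := by
      have h0 : (0 : ℝ) < 2 * a - 1 := by linarith
      have e1 : 2 / ((a : ℝ) + 1) + ((2 * a + 1) / (a + 1) +
          4 * (a : ℝ) * (a - 1) / (2 * a - 1) ^ 2) =
          ((2 * a + 3) * (2 * a - 1) ^ 2 + 4 * a * (a - 1) * (a + 1)) /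
            ((a + 1) * (2 * a - 1) ^ 2) := by
        field_simp
        ring
      rw [e1, div_le_div_iff₀ (by positivity) (by norm_num)]
      have h5 : 0 ≤ (a : ℝ) * (24 * a ^ 2 - 100 * a + 107) := by
        apply mul_nonneg (by linarith)
        nlinarith [sq_nonneg ((a : ℝ) - 25 / 12)]
      nlinarith
    have hB : Bd 0 = 81 / 100 := rfl
    rw [hB]
    calc (1 / 4 : ℝ) * (kk a b (0 + 1) - kk b a (0 + 1) + 1 / (2 * (a : ℝ)) * Lc a b 0)
        ≤ (1 / 4 : ℝ) * ((1 / (2 * (a : ℝ))) * (2 / (a + 1)) + 1 / (2 * (a : ℝ)) *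
            ((2 * a + 1) / (a + 1) + 4 * (a : ℝ) * (a - 1) / (2 * a - 1) ^ 2)) := by
          rw [← h3]; gcongr
      _ = (1 / (2 * (a : ℝ))) * ((1 / 4) * (2 / ((a : ℝ) + 1) + ((2 * a + 1) / (a + 1) +
            4 * (a : ℝ) * (a - 1) / (2 * a - 1) ^ 2))) := by ring
      _ ≤ (1 / (2 * (a : ℝ))) * (81 / 100) := by
          gcongr
          linarith
  · have h1 := (kk_sub ha hab (m + 1 + 1)).2
    have h2 : Lc a b (m + 1) ≤ 2 * (m + 2) + 1 := by
      unfold Lc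
      have h3 := kk_pow ha hb (m + 1 + 1)
      have h4 := (kk_rev_pow ha hb (m + 1)).trans (rev_bound_le_one ha)
      have hm : (0 : ℝ) ≤ m := Nat.cast_nonneg m
      push_cast at h3 h4 ⊢
      nlinarith
    have h5 := T_real_bound m
    have hB : Bd (m + 1) = (11 / 64) * (1 / 32) ^ m := rfl
    rw [hB]
    calc T (1 / 4 : ℝ) (m + 1 + 1) * (kk a b (m + 1 + 1) - kk b a (m + 1 + 1) +
          1 / (2 * (a : ℝ)) * Lc a b (m + 1))
        ≤ T (1 / 4 : ℝ) (m + 1 + 1) * ((1 / (2 * (a : ℝ))) *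
            (((m + 1 + 1 : ℕ) : ℝ) * (((m + 1 + 1 : ℕ) : ℝ) + 1)) +
            1 / (2 * (a : ℝ)) * (2 * (m + 2) + 1)) := by gcongr
      _ = (1 / (2 * (a : ℝ))) * (T (1 / 4 : ℝ) (m + 2) *
            ((m + 2) * (m + 3) + (2 * (m + 2) + 1))) := by push_cast; ring
      _ ≤ _ := by gcongr

theorem sum_Bd_le (N : ℕ) : ∑ m ∈ range N, Bd m ≤ 99 / 100 := by
  have hnn : ∀ m, 0 ≤ Bd m := by
    intro m
    cases m with
    | zero => norm_num [Bd]
    | succ m => unfold Bd; positivity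
  have h1 : ∑ m ∈ range N, Bd m ≤ ∑ m ∈ range (N + 1), Bd m :=
    sum_le_sum_of_subset_of_nonneg (range_subset_range.2 (by omega)) fun m _ _ => hnn m
  refine h1.trans ?_
  rw [sum_range_succ']
  have h2 : ∑ m ∈ range N, Bd (m + 1) = (11 / 64) * ∑ m ∈ range N, (1 / 32 : ℝ) ^ m := by
    rw [mul_sum]; rfl
  have h3 : ∑ m ∈ range N, (1 / 32 : ℝ) ^ m ≤ 32 / 31 := by
    rw [geom_sum_eq (by norm_num)]
    have : (0 : ℝ) ≤ (1 / 32) ^ N := by positivity
    rw [div_le_iff_of_neg (by norm_num)]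
    linarith
  have hB : Bd 0 = 81 / 100 := rfl
  rw [h2, hB]
  linarith

end coeff

end Pool.Agent.Lib.MP_f76da2_an
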