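import Pool.Agent.Lib.MP_f76da2_an.Estimates

/-!
# The fixed point of the local equation, and the zeros for `|w| ≥ 2`
-/

set_option autoImplicit false

namespace Pool.Agent.Lib.MP_f76da2_an

open Finset

theorem norm_T_le {t : ℂ} (ht : ‖t‖ ≤ 1 / 4) (m : ℕ) : ‖T t m‖ ≤ T (1 / 4 : ℝ) m := by
  induction m with
  | zero => simp
  | succ m ih =>
    rw [T_succ, T_succ, norm_mul, norm_pow]
    exact mul_le_mul ih (pow_le_pow_left₀ (norm_nonneg _) ht _) (by positivity)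
      ((norm_nonneg _).trans ih)

theorem norm_pow_sub {x y : ℂ} {R : ℝ} (hR : 0 ≤ R) (hx : ‖x‖ ≤ R) (hy : ‖y‖ ≤ R) (k : ℕ) :
    ‖x ^ (k + 1) - y ^ (k + 1)‖ ≤ (k + 1) * R ^ k * ‖x - y‖ := by
  induction k with
  | zero => simp
  | succ k ih =>
    have h1 : x ^ (k + 1 + 1) - y ^ (k + 1 + 1) =
        x * (x ^ (k + 1) - y ^ (k + 1)) + (x - y) * y ^ (k + 1) := by ring
    rw [h1]
    refine (norm_add_le _ _).trans ?_
    rw [norm_mul, norm_mul, norm_pow]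
    have h2 : ‖y‖ ^ (k + 1) ≤ R ^ (k + 1) := by gcongr
    have h3 : ‖x‖ * ‖x ^ (k + 1) - y ^ (k + 1)‖ ≤ R * ((k + 1) * R ^ k * ‖x - y‖) := by gcongr
    have h4 : ‖x - y‖ * ‖y‖ ^ (k + 1) ≤ ‖x - y‖ * R ^ (k + 1) := by gcongr
    refine (add_le_add h3 h4).trans (le_of_eq ?_)
    push_cast
    ring

section

variable {a b : ℕ} {t : ℂ}

theorem term_lip (ha : 1 ≤ a) {x y : ℂ} (hx : ‖x - 1‖ ≤ 1 / (2 * (a : ℝ)))
    (hy : ‖y - 1‖ ≤ 1 / (2 * (a : ℝ))) (b m : ℕ) :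
    ‖((kk a b (m + 1) : ℂ) * x ^ (m + 2) - (kk b a (m + 1) : ℂ) * x⁻¹ ^ (m + 1)) -
      ((kk a b (m + 1) : ℂ) * y ^ (m + 2) - (kk b a (m + 1) : ℂ) * y⁻¹ ^ (m + 1))‖ ≤
      Lc a b m * ‖x - y‖ := by
  have ha' : (1 : ℝ) ≤ a := by exact_mod_cast ha
  set r : ℝ := 1 / (2 * (a : ℝ)) with hr
  have hr0 : 0 < r := by rw [hr]; positivity
  have hr1 : 0 < 1 - r := by
    rw [hr, sub_pos, div_lt_one (by linarith)]
    linarith
  have hup : ∀ z : ℂ, ‖z - 1‖ ≤ r → ‖z‖ ≤ 1 + r := by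
    intro z hz
    calc ‖z‖ = ‖1 + (z - 1)‖ := by ring_nf
      _ ≤ ‖(1 : ℂ)‖ + ‖z - 1‖ := norm_add_le _ _
      _ ≤ 1 + r := by rw [norm_one]; linarith
  have hlow : ∀ z : ℂ, ‖z - 1‖ ≤ r → 1 - r ≤ ‖z‖ := by
    intro z hz
    have h1 : ‖(1 : ℂ)‖ ≤ ‖z‖ + ‖z - 1‖ := by
      calc ‖(1 : ℂ)‖ = ‖z - (z - 1)‖ := by ring_nf
        _ ≤ _ := norm_sub_le _ _
    rw [norm_one] at h1
    linarith
  have hinv : ∀ z : ℂ, ‖z - 1‖ ≤ r → ‖z⁻¹‖ ≤ (1 - r)⁻¹ := by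
    intro z hz
    rw [norm_inv]
    exact inv_anti₀ hr1 (hlow z hz)
  have h1 : ((kk a b (m + 1) : ℂ) * x ^ (m + 2) - (kk b a (m + 1) : ℂ) * x⁻¹ ^ (m + 1)) -
      ((kk a b (m + 1) : ℂ) * y ^ (m + 2) - (kk b a (m + 1) : ℂ) * y⁻¹ ^ (m + 1)) =
      (kk a b (m + 1) : ℂ) * (x ^ (m + 2) - y ^ (m + 2)) -
        (kk b a (m + 1) : ℂ) * (x⁻¹ ^ (m + 1) - y⁻¹ ^ (m + 1)) := by ring
  rw [h1]
  refine (norm_sub_le _ _).trans ?_
  rw [norm_mul, norm_mul, Complex.norm_real, Complex.norm_real, Real.norm_eq_abs,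
    Real.norm_eq_abs, abs_of_nonneg (kk_nonneg _ _ _), abs_of_nonneg (kk_nonneg _ _ _)]
  have h2 := norm_pow_sub (by linarith : (0 : ℝ) ≤ 1 + r) (hup x hx) (hup y hy) (m + 1)
  have h3 := norm_pow_sub (inv_nonneg.2 hr1.le) (hinv x hx) (hinv y hy) m
  have hx0 : x ≠ 0 := by
    intro h
    have := hlow x hx
    rw [h, norm_zero] at this
    linarith
  have hy0 : y ≠ 0 := by
    intro h
    have := hlow y hy
    rw [h, norm_zero] at this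
    linarith
  have h4 : ‖x⁻¹ - y⁻¹‖ ≤ (1 - r)⁻¹ ^ 2 * ‖x - y‖ := by
    have h5 : x⁻¹ - y⁻¹ = x⁻¹ * y⁻¹ * (y - x) := by field_simp
    rw [h5, norm_mul, norm_mul, norm_sub_rev y x, pow_two]
    have h6 := hinv x hx
    have h7 := hinv y hy
    gcongr
  have h8 : ‖x⁻¹ ^ (m + 1) - y⁻¹ ^ (m + 1)‖ ≤ (m + 1) * (1 - r)⁻¹ ^ (m + 2) * ‖x - y‖ := by
    refine h3.trans ?_
    calc ((m : ℝ) + 1) * (1 - r)⁻¹ ^ m * ‖x⁻¹ - y⁻¹‖
        ≤ ((m : ℝ) + 1) * (1 - r)⁻¹ ^ m * ((1 - r)⁻¹ ^ 2 * ‖x - y‖) := by gcongr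
      _ = _ := by ring
  have h9 : ‖x ^ (m + 2) - y ^ (m + 2)‖ ≤ (m + 2) * (1 + r) ^ (m + 1) * ‖x - y‖ := by
    refine h2.trans (le_of_eq ?_)
    push_cast
    ring
  have hk1 := kk_nonneg a b (m + 1)
  have hk2 := kk_nonneg b a (m + 1)
  unfold Lc
  rw [← hr]
  calc kk a b (m + 1) * ‖x ^ (m + 2) - y ^ (m + 2)‖ +
        kk b a (m + 1) * ‖x⁻¹ ^ (m + 1) - y⁻¹ ^ (m + 1)‖
      ≤ kk a b (m + 1) * ((m + 2) * (1 + r) ^ (m + 1) * ‖x - y‖) +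
        kk b a (m + 1) * ((m + 1) * (1 - r)⁻¹ ^ (m + 2) * ‖x - y‖) := by gcongr
    _ = _ := by ring

theorem Phi_lip (ha : 1 ≤ a) (hab : a ≤ b) (ht : ‖t‖ ≤ 1 / 4) {x y : ℂ}
    (hx : ‖x - 1‖ ≤ 1 / (2 * (a : ℝ))) (hy : ‖y - 1‖ ≤ 1 / (2 * (a : ℝ))) :
    ‖Phi a b t x - Phi a b t y‖ ≤ 99 / 100 * ‖x - y‖ := by
  unfold Phi
  rw [add_sub_add_left_eq_sub, ← sum_sub_distrib]
  refine (norm_sum_le _ _).trans ?_
  have h1 : ∀ m ∈ range (a + b), ‖(-1) ^ m * T t (m + 1) *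
      ((kk a b (m + 1) : ℂ) * x ^ (m + 2) - (kk b a (m + 1) : ℂ) * x⁻¹ ^ (m + 1)) -
      (-1) ^ m * T t (m + 1) *
      ((kk a b (m + 1) : ℂ) * y ^ (m + 2) - (kk b a (m + 1) : ℂ) * y⁻¹ ^ (m + 1))‖ ≤
      Bd m * ‖x - y‖ := by
    intro m _
    rw [← mul_sub, norm_mul, norm_mul, norm_pow, norm_neg, norm_one, one_pow, one_mul]
    have h2 := term_lip ha hx hy b m
    have h3 := norm_T_le ht (m + 1)
    have h4 := (term_bound ha hab m).2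
    calc ‖T t (m + 1)‖ * _ ≤ T (1 / 4 : ℝ) (m + 1) * (Lc a b m * ‖x - y‖) :=
          mul_le_mul h3 h2 (norm_nonneg _) ((norm_nonneg _).trans h3)
      _ = T (1 / 4 : ℝ) (m + 1) * Lc a b m * ‖x - y‖ := by ring
      _ ≤ _ := by gcongr
  refine (sum_le_sum h1).trans ?_
  rw [← sum_mul]
  exact mul_le_mul_of_nonneg_right (sum_Bd_le _) (norm_nonneg _)

theorem Phi_maps (ha : 1 ≤ a) (hab : a ≤ b) (ht : ‖t‖ ≤ 1 / 4) {x : ℂ}
    (hx : ‖x - 1‖ ≤ 1 / (2 * (a : ℝ))) : ‖Phi a b t x - 1‖ ≤ 1 / (2 * (a : ℝ)) := by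
  have ha' : (1 : ℝ) ≤ a := by exact_mod_cast ha
  have hr0 : 0 < 1 / (2 * (a : ℝ)) := by positivity
  unfold Phi
  rw [add_sub_cancel_left]
  refine (norm_sum_le _ _).trans ?_
  have h1 : ∀ m ∈ range (a + b), ‖(-1) ^ m * T t (m + 1) *
      ((kk a b (m + 1) : ℂ) * x ^ (m + 2) - (kk b a (m + 1) : ℂ) * x⁻¹ ^ (m + 1))‖ ≤
      (1 / (2 * (a : ℝ))) * Bd m := by
    intro m _
    rw [norm_mul, norm_mul, norm_pow, norm_neg, norm_one, one_pow, one_mul]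
    have h2 := term_lip ha hx (y := 1) (by rw [sub_self, norm_zero]; exact hr0.le) b m
    have h3 := norm_T_le ht (m + 1)
    have h4 := (term_bound ha hab m).1
    have h5 : ‖(kk a b (m + 1) : ℂ) * x ^ (m + 2) - (kk b a (m + 1) : ℂ) * x⁻¹ ^ (m + 1)‖ ≤
        (kk a b (m + 1) - kk b a (m + 1)) + 1 / (2 * (a : ℝ)) * Lc a b m := by
      have h6 : (kk a b (m + 1) : ℂ) * x ^ (m + 2) - (kk b a (m + 1) : ℂ) * x⁻¹ ^ (m + 1) =
          (((kk a b (m + 1) : ℂ) * x ^ (m + 2) - (kk b a (m + 1) : ℂ) * x⁻¹ ^ (m + 1)) -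
            ((kk a b (m + 1) : ℂ) * 1 ^ (m + 2) - (kk b a (m + 1) : ℂ) * 1⁻¹ ^ (m + 1))) +
            ((kk a b (m + 1) - kk b a (m + 1) : ℝ) : ℂ) := by
        push_cast
        simp only [one_pow, inv_one, mul_one]
        ring
      rw [h6]
      refine (norm_add_le _ _).trans ?_
      have h7 : ‖((kk a b (m + 1) - kk b a (m + 1) : ℝ) : ℂ)‖ =
          kk a b (m + 1) - kk b a (m + 1) := by
        rw [Complex.norm_real, Real.norm_eq_abs,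
          abs_of_nonneg (sub_nonneg.2 (kk_sub ha hab (m + 1)).1)]
      rw [h7]
      have h8 : Lc a b m * ‖x - 1‖ ≤ 1 / (2 * (a : ℝ)) * Lc a b m := by
        rw [mul_comm]
        exact mul_le_mul_of_nonneg_right hx (Lc_nonneg ha b m)
      linarith
    calc ‖T t (m + 1)‖ * _ ≤ T (1 / 4 : ℝ) (m + 1) *
          ((kk a b (m + 1) - kk b a (m + 1)) + 1 / (2 * (a : ℝ)) * Lc a b m) :=
          mul_le_mul h3 h5 (norm_nonneg _) ((norm_nonneg _).trans h3)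
      _ ≤ _ := h4
  refine (sum_le_sum h1).trans ?_
  rw [← mul_sum]
  have := sum_Bd_le (a + b)
  nlinarith

theorem exists_fixed (ha : 1 ≤ a) (hab : a ≤ b) (ht : ‖t‖ ≤ 1 / 4) :
    ∃ x : ℂ, ‖x - 1‖ ≤ 1 / (2 * (a : ℝ)) ∧ Phi a b t x = x := by
  have ha' : (1 : ℝ) ≤ a := by exact_mod_cast ha
  have hr0 : 0 < 1 / (2 * (a : ℝ)) := by positivity
  set s : Set ℂ := Metric.closedBall 1 (1 / (2 * (a : ℝ))) with hs
  have hmem : ∀ x, x ∈ s ↔ ‖x - 1‖ ≤ 1 / (2 * (a : ℝ)) := by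
    intro x
    rw [hs, mem_closedBall_iff_norm]
  have hsc : IsComplete s := Metric.isClosed_closedBall.isComplete
  have hmaps : Set.MapsTo (Phi a b t) s s := by
    intro x hx
    rw [hmem] at hx ⊢
    exact Phi_maps ha hab ht hx
  have hcontr : ContractingWith (99 / 100 : NNReal) (hmaps.restrict (Phi a b t) s s) := by
    refine ⟨?_, ?_⟩
    · rw [← NNReal.coe_lt_coe]
      push_cast
      norm_num
    · refine LipschitzWith.of_dist_le_mul fun x y => ?_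
      have h1 := Phi_lip ha hab ht ((hmem x.1).1 x.2) ((hmem y.1).1 y.2)
      rw [← dist_eq_norm, ← dist_eq_norm] at h1
      push_cast
      exact h1
  have h1 : (1 : ℂ) ∈ s := by
    rw [hmem, sub_self, norm_zero]
    exact hr0.le
  obtain ⟨x, hx, hfix, -⟩ := hcontr.exists_fixedPoint' hsc hmaps h1 (edist_ne_top _ _)
  exact ⟨x, (hmem x).1 hx, hfix⟩

end

/-- The zero of index `a` when `2a ≤ n + 1`. -/
theorem exists_zero {n a b : ℕ} (ha : 1 ≤ a) (hab : a ≤ b) (h : n + 1 = a + b) {w : ℂ}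
    (hw : 2 ≤ ‖w‖) : ∃ z : ℂ, (P n w).eval z = 0 ∧
      ((a : ℝ) - 1 / 2) / b * ‖w‖ ^ (2 * a) ≤ ‖z‖ * ‖w‖ ^ (n + 1) ∧
      ‖z‖ * ‖w‖ ^ (n + 1) ≤ ((a : ℝ) + 1 / 2) / b * ‖w‖ ^ (2 * a) := by
  have hb : 1 ≤ b := ha.trans hab
  have ha' : (1 : ℝ) ≤ a := by exact_mod_cast ha
  have hb' : (1 : ℝ) ≤ b := by exact_mod_cast hb
  have hw0 : w ≠ 0 := by
    rintro rfl
    rw [norm_zero] at hw
    linarith
  set t : ℂ := (w ^ 2)⁻¹ with ht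
  have ht0 : t ≠ 0 := inv_ne_zero (pow_ne_zero _ hw0)
  have htn : ‖t‖ ≤ 1 / 4 := by
    rw [ht, norm_inv, norm_pow, one_div]
    exact inv_anti₀ (by norm_num) (by nlinarith)
  obtain ⟨x, hx, hfix⟩ := exists_fixed ha hab htn
  have hr1 : 1 / (2 * (a : ℝ)) < 1 := by
    rw [div_lt_one (by linarith)]
    linarith
  have hup : ‖x‖ ≤ 1 + 1 / (2 * (a : ℝ)) := by
    calc ‖x‖ = ‖1 + (x - 1)‖ := by ring_nf
      _ ≤ ‖(1 : ℂ)‖ + ‖x - 1‖ := norm_add_le _ _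
      _ ≤ _ := by rw [norm_one]; linarith
  have hlow : 1 - 1 / (2 * (a : ℝ)) ≤ ‖x‖ := by
    have h1 : ‖(1 : ℂ)‖ ≤ ‖x‖ + ‖x - 1‖ := by
      calc ‖(1 : ℂ)‖ = ‖x - (x - 1)‖ := by ring_nf
        _ ≤ _ := norm_sub_le _ _
    rw [norm_one] at h1
    linarith
  have hx0 : x ≠ 0 := by
    intro h0
    rw [h0, norm_zero] at hlow
    linarith
  have hz := phi_eq_zero_of_fixed ha hb h ht0 hx0 hfix
  have hwn : w ^ (n + 1) ≠ 0 := pow_ne_zero _ hw0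
  refine ⟨-((((a : ℝ) / b : ℝ) : ℂ) * x / t ^ a) / w ^ (n + 1), ?_, ?_⟩
  · rw [P_eval_eq_phi n hw0, div_mul_cancel₀ _ hwn, neg_neg]
    exact hz
  · have h1 : ‖-((((a : ℝ) / b : ℝ) : ℂ) * x / t ^ a) / w ^ (n + 1)‖ * ‖w‖ ^ (n + 1) =
        (a : ℝ) / b * ‖x‖ * ‖w‖ ^ (2 * a) := by
      rw [norm_div, norm_pow, div_mul_cancel₀ _ (pow_ne_zero _ (norm_ne_zero_iff.2 hw0)), norm_neg,
        norm_div, norm_mul, Complex.norm_real, Real.norm_eq_abs, abs_of_pos (by positivity),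
        norm_pow, ht, norm_inv, norm_pow, inv_pow, ← pow_mul, div_inv_eq_mul]
    rw [h1]
    have h2 : ((a : ℝ) - 1 / 2) / b = (a : ℝ) / b * (1 - 1 / (2 * (a : ℝ))) := by field_simp
    have h3 : ((a : ℝ) + 1 / 2) / b = (a : ℝ) / b * (1 + 1 / (2 * (a : ℝ))) := by field_simp
    rw [h2, h3]
    constructor <;> gcongr

end Pool.Agent.Lib.MP_f76da2_an
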