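import Pool.Agent.Lib.MP_f76da2_an.FixedPoint

/-!
# Separation for all `n` and all complex `w` with `|w| ≥ 2`
-/

set_option autoImplicit false

namespace Pool.Agent.Lib.MP_f76da2_an

open Finset

theorem exists_index {n l : ℕ} (hl1 : 1 ≤ l) (hln : l ≤ n) {w : ℂ} (hw : 2 ≤ ‖w‖) :
    ∃ z : ℂ, (P n w).eval z = 0 ∧ z ≠ 0 ∧ ∃ R : ℝ, 0 < R ∧
      ‖z‖ * ‖w‖ ^ (n + 1) = R * ‖w‖ ^ (2 * l) ∧
      (2 * l ≤ n + 1 → (l : ℝ) - 1 / 2 ≤ R * (n + 1 - l) ∧ R * (n + 1 - l) ≤ l + 1 / 2) ∧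
      (n + 1 < 2 * l → ((n : ℝ) + 1 - l - 1 / 2) * R ≤ l ∧ (l : ℝ) ≤ (n + 1 - l + 1 / 2) * R) := by
  have hw0 : 0 < ‖w‖ := by linarith
  have hdirect : ∀ l : ℕ, 1 ≤ l → 2 * l ≤ n + 1 → ∃ z : ℂ, (P n w).eval z = 0 ∧ z ≠ 0 ∧
      ∃ R : ℝ, 0 < R ∧ ‖z‖ * ‖w‖ ^ (n + 1) = R * ‖w‖ ^ (2 * l) ∧
      (l : ℝ) - 1 / 2 ≤ R * (n + 1 - l) ∧ R * (n + 1 - l) ≤ l + 1 / 2 := by
    intro l hl hl2
    obtain ⟨z, hz, h1, h2⟩ := exists_zero (n := n) (a := l) (b := n + 1 - l) hl (by omega)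
      (by omega) hw
    have hl' : (1 : ℝ) ≤ l := by exact_mod_cast hl
    have hb : ((n + 1 - l : ℕ) : ℝ) = (n : ℝ) + 1 - l := by
      rw [Nat.cast_sub (by omega)]; push_cast; ring
    have hb0 : (0 : ℝ) < (n : ℝ) + 1 - l := by
      rw [← hb]; exact_mod_cast (by omega : 0 < n + 1 - l)
    rw [hb] at h1 h2
    have hp : 0 < ‖w‖ ^ (2 * l) := by positivity
    have hq : 0 < ‖w‖ ^ (n + 1) := by positivity
    have hpos : 0 < ‖z‖ * ‖w‖ ^ (n + 1) := by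
      refine lt_of_lt_of_le ?_ h1
      have : 0 < ((l : ℝ) - 1 / 2) / ((n : ℝ) + 1 - l) := div_pos (by linarith) hb0
      positivity
    have hz0 : z ≠ 0 := by
      rintro rfl
      rw [norm_zero, zero_mul] at hpos
      exact lt_irrefl _ hpos
    refine ⟨z, hz, hz0, ‖z‖ * ‖w‖ ^ (n + 1) / ‖w‖ ^ (2 * l), by positivity, ?_, ?_, ?_⟩
    · rw [div_mul_cancel₀ _ hp.ne']
    · rw [← le_div_iff₀ hp] at h1
      rwa [div_le_iff₀ hb0] at h1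
    · rw [← div_le_iff₀ hp] at h2
      rwa [le_div_iff₀ hb0] at h2
  by_cases hl2 : 2 * l ≤ n + 1
  · obtain ⟨z, hz, hz0, R, hR, h1, h2, h3⟩ := hdirect l hl1 hl2
    exact ⟨z, hz, hz0, R, hR, h1, fun _ => ⟨h2, h3⟩, fun h => absurd h (by omega)⟩
  · obtain ⟨z, hz, hz0, R, hR, h1, h2, h3⟩ := hdirect (n + 1 - l) (by omega) (by omega)
    refine ⟨z⁻¹, P_eval_inv n w hz0 hz, inv_ne_zero hz0, R⁻¹, inv_pos.2 hR, ?_,
      fun h => absurd h hl2, fun _ => ?_⟩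
    · rw [norm_inv]
      have hz' : 0 < ‖z‖ := norm_pos_iff.2 hz0
      have h4 : ‖w‖ ^ (n + 1) * ‖w‖ ^ (n + 1) = ‖w‖ ^ (2 * l) * ‖w‖ ^ (2 * (n + 1 - l)) := by
        rw [← pow_add, ← pow_add]
        congr 1
        omega
      rw [inv_mul_eq_iff_eq_mul₀ hz'.ne', ← mul_assoc, mul_comm ‖z‖, mul_assoc,
        eq_inv_mul_iff_mul_eq₀ hR.ne']
      have h5 : 0 < ‖w‖ ^ (2 * (n + 1 - l)) := by positivity
      have h6 : 0 < ‖w‖ ^ (n + 1) := by positivity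
      have h7 : R * ‖w‖ ^ (n + 1) * ‖w‖ ^ (2 * (n + 1 - l)) =
          ‖z‖ * ‖w‖ ^ (2 * l) * ‖w‖ ^ (2 * (n + 1 - l)) := by
        calc R * ‖w‖ ^ (n + 1) * ‖w‖ ^ (2 * (n + 1 - l))
            = (R * ‖w‖ ^ (2 * (n + 1 - l))) * ‖w‖ ^ (n + 1) := by ring
          _ = ‖z‖ * (‖w‖ ^ (n + 1) * ‖w‖ ^ (n + 1)) := by rw [← h1]; ring
          _ = _ := by rw [h4]; ring
      exact mul_right_cancel₀ h5.ne' h7
    · have hb : ((n + 1 - l : ℕ) : ℝ) = (n : ℝ) + 1 - l := by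
        rw [Nat.cast_sub (by omega)]; push_cast; ring
      rw [hb] at h2 h3
      rw [show (n : ℝ) + 1 - (n + 1 - l) = l by ring] at h2 h3
      constructor
      · rw [← div_eq_mul_inv, div_le_iff₀ hR]
        linarith
      · rw [← div_eq_mul_inv, le_div_iff₀ hR]
        linarith

/-- **All `n` and all complex `w` with `|w| ≥ 2`.** -/
theorem separated_large (n : ℕ) {w : ℂ} (hw : 2 ≤ ‖w‖) : Separated n w := by
  have hex : ∀ i : ℕ, ∃ z : ℂ, ∃ R : ℝ, i < n → (P n w).eval z = 0 ∧ z ≠ 0 ∧ 0 < R ∧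
      ‖z‖ * ‖w‖ ^ (n + 1) = R * ‖w‖ ^ (2 * (i + 1)) ∧
      (2 * (i + 1) ≤ n + 1 → (((i + 1 : ℕ) : ℝ)) - 1 / 2 ≤ R * (n + 1 - ((i + 1 : ℕ) : ℝ)) ∧
        R * (n + 1 - ((i + 1 : ℕ) : ℝ)) ≤ ((i + 1 : ℕ) : ℝ) + 1 / 2) ∧
      (n + 1 < 2 * (i + 1) → ((n : ℝ) + 1 - ((i + 1 : ℕ) : ℝ) - 1 / 2) * R ≤ ((i + 1 : ℕ) : ℝ) ∧
        ((i + 1 : ℕ) : ℝ) ≤ (n + 1 - ((i + 1 : ℕ) : ℝ) + 1 / 2) * R) := by
    intro i
    by_cases hi : i < n
    · obtain ⟨z, h1, h2, R, h3, h4, h5, h6⟩ :=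
        exists_index (n := n) (l := i + 1) (by omega) (by omega) hw
      exact ⟨z, R, fun _ => ⟨h1, h2, h3, h4, h5, h6⟩⟩
    · exact ⟨0, 0, fun h => absurd h hi⟩
  choose y R hy using hex
  refine separated_of_zeros (by linarith) y (fun i hi => (hy i hi).2.1)
    (fun i hi => (hy i hi).1) fun i hi => ?_
  obtain ⟨-, -, hR1, hn1, hd1, hm1⟩ := hy i (by omega)
  obtain ⟨-, -, hR2, hn2, hd2, hm2⟩ := hy (i + 1) hi
  have hw0 : 0 < ‖w‖ := by linarith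
  have hin : (i : ℝ) + 1 + 1 ≤ n := by exact_mod_cast hi
  have hi0 : (0 : ℝ) ≤ i := Nat.cast_nonneg i
  have hRR : R i ≤ R (i + 1) := by
    by_cases h1 : 2 * (i + 1) ≤ n + 1
    · have ha := (hd1 h1).2
      push_cast at ha
      by_cases h2 : 2 * (i + 1 + 1) ≤ n + 1
      · have hb := (hd2 h2).1
        push_cast at hb
        have h3 : R i * ((n : ℝ) + 1 - (i + 1 + 1)) ≤ R (i + 1) * ((n : ℝ) + 1 - (i + 1 + 1)) := by
          nlinarith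
        exact le_of_mul_le_mul_right h3 (by linarith)
      · have hb := (hm2 (by omega)).2
        push_cast at hb
        have h3 : ((n : ℝ) + 1 - (i + 1)) * ((n : ℝ) + 1 - (i + 1 + 1) + 1 / 2) * R i ≤
            ((n : ℝ) + 1 - (i + 1)) * ((n : ℝ) + 1 - (i + 1 + 1) + 1 / 2) * R (i + 1) := by
          have h4 : (0 : ℝ) < (n : ℝ) + 1 - (i + 1) := by linarith
          have h5 : (0 : ℝ) < (n : ℝ) + 1 - (i + 1 + 1) + 1 / 2 := by linarith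
          calc ((n : ℝ) + 1 - (i + 1)) * ((n : ℝ) + 1 - (i + 1 + 1) + 1 / 2) * R i
              = (R i * ((n : ℝ) + 1 - (i + 1))) * ((n : ℝ) + 1 - (i + 1 + 1) + 1 / 2) := by ring
            _ ≤ ((i : ℝ) + 1 + 1 / 2) * ((n : ℝ) + 1 - (i + 1 + 1) + 1 / 2) := by gcongr
            _ ≤ ((i : ℝ) + 1 + 1) * ((n : ℝ) + 1 - (i + 1)) := by nlinarith
            _ ≤ (((n : ℝ) + 1 - (i + 1 + 1) + 1 / 2) * R (i + 1)) * ((n : ℝ) + 1 - (i + 1)) := by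
              gcongr
            _ = _ := by ring
        refine le_of_mul_le_mul_left h3 (mul_pos (by linarith) (by linarith))
    · have ha := (hm1 (by omega)).1
      have hb := (hm2 (by omega)).2
      push_cast at ha hb
      have h3 : ((n : ℝ) + 1 - (i + 1) - 1 / 2) * R i ≤
          ((n : ℝ) + 1 - (i + 1) - 1 / 2) * R (i + 1) := by
        nlinarith
      exact le_of_mul_le_mul_left h3 (by linarith)
  have hq : 0 < ‖w‖ ^ (n + 1) := by positivity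
  have h1 : ‖w‖ ^ 2 * ‖y i‖ * ‖w‖ ^ (n + 1) ≤ ‖y (i + 1)‖ * ‖w‖ ^ (n + 1) := by
    rw [hn2, mul_assoc, hn1]
    calc ‖w‖ ^ 2 * (R i * ‖w‖ ^ (2 * (i + 1))) = R i * ‖w‖ ^ (2 * (i + 1 + 1)) := by ring
      _ ≤ _ := by gcongr
  exact le_of_mul_le_mul_right h1 hq

end Pool.Agent.Lib.MP_f76da2_an
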