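import Pool.Agent.Lib.MP_f76da2_an.Assembly

/-!
# The local equation near the zero of index `a`

With `n + 1 = a + b` and `u = (a/b) t^(-a) x` the equation `phi n t u = 0` becomes
`x = 1 + ∑_{m ≥ 1} (-1)^(m+1) t^(m(m+1)/2) (kk a b m x^(m+1) - kk b a m x^(-m))`.
-/

set_option autoImplicit false

namespace Pool.Agent.Lib.MP_f76da2_an

open Finset

/-- The factors of the coefficients. -/
noncomputable def ff (a b i : ℕ) : ℝ := (a : ℝ) * ((b - i : ℕ) : ℝ) / ((b : ℝ) * ((a : ℝ) + i))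

/-- The coefficients of the local equation. -/
noncomputable def kk (a b : ℕ) : ℕ → ℝ
  | 0 => 1
  | m + 1 => kk a b m * ff a b (m + 1)

theorem kk_zero (a b : ℕ) : kk a b 0 = 1 := rfl

theorem kk_succ (a b m : ℕ) : kk a b (m + 1) = kk a b m * ff a b (m + 1) := rfl

theorem kk_eq_zero {a b m : ℕ} (hb : 1 ≤ b) (h : b ≤ m) : kk a b m = 0 := by
  induction m, h using Nat.le_induction with
  | base =>
    obtain ⟨c, rfl⟩ : ∃ c, b = c + 1 := ⟨b - 1, by omega⟩
    rw [kk_succ, ff]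
    simp
  | succ m hm ih => rw [kk_succ, ih, zero_mul]

theorem choose_up {a b n : ℕ} (ha : 1 ≤ a) (hb : 1 ≤ b) (h : n + 1 = a + b) (m : ℕ) :
    (n.choose (a + m) : ℝ) * ((a : ℝ) / b) ^ m = n.choose a * kk a b m := by
  have ha' : (0 : ℝ) < a := by exact_mod_cast ha
  have hb' : (0 : ℝ) < b := by exact_mod_cast hb
  induction m with
  | zero => simp [kk_zero]
  | succ m ih =>
    have h1 : (n.choose (a + m + 1) : ℝ) * ((a : ℝ) + (m + 1 : ℕ)) =
        n.choose (a + m) * ((b - (m + 1) : ℕ) : ℝ) := by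
      have h2 := Nat.choose_succ_right_eq n (a + m)
      rw [show n - (a + m) = b - (m + 1) by omega] at h2
      have h3 : ((n.choose (a + m + 1) * (a + m + 1) : ℕ) : ℝ) =
          ((n.choose (a + m) * (b - (m + 1)) : ℕ) : ℝ) := by rw [h2]
      push_cast [Nat.cast_mul] at h3 ⊢
      rw [← h3]
      ring
    have h4 : (0 : ℝ) < (a : ℝ) + (m + 1 : ℕ) := by positivity
    rw [← add_assoc, kk_succ, ← mul_assoc, ← ih, ff, pow_succ]
    have h5 : (n.choose (a + m + 1) : ℝ) =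
        n.choose (a + m) * ((b - (m + 1) : ℕ) : ℝ) / ((a : ℝ) + (m + 1 : ℕ)) := by
      rw [eq_div_iff h4.ne', h1]
    rw [h5]
    field_simp

theorem choose_down {a b n : ℕ} (ha : 1 ≤ a) (hb : 1 ≤ b) (h : n + 1 = a + b) {j m : ℕ}
    (hj : j + 1 + m = a) :
    (n.choose j : ℝ) * ((b : ℝ) / a) ^ (m + 1) = n.choose a * kk b a m := by
  have ha' : (0 : ℝ) < a := by exact_mod_cast ha
  have hb' : (0 : ℝ) < b := by exact_mod_cast hb
  have h1 := choose_up hb ha (by omega : n + 1 = b + a) m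
  have h2 : n.choose (b + m) = n.choose j := by
    rw [← Nat.choose_symm (by omega : b + m ≤ n)]
    congr 1
    omega
  have h3 : (n.choose b : ℝ) * ((b : ℝ) / a) = n.choose a := by
    have h4 := Nat.choose_succ_right_eq n (a - 1)
    rw [show a - 1 + 1 = a by omega, show n - (a - 1) = b by omega] at h4
    have h5 : n.choose b = n.choose (a - 1) := by
      rw [← Nat.choose_symm (by omega : b ≤ n)]
      congr 1
      omega
    have h6 : ((n.choose a * a : ℕ) : ℝ) = ((n.choose (a - 1) * b : ℕ) : ℝ) := by rw [h4]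
    push_cast at h6
    rw [h5, ← mul_div_assoc, div_eq_iff ha'.ne', ← h6]
  rw [pow_succ, ← mul_assoc, ← h2, h1, mul_assoc, mul_comm (kk b a m), ← mul_assoc, h3]

/-- The local form of `phi`. -/
theorem phi_local {a b n : ℕ} (ha : 1 ≤ a) (hb : 1 ≤ b) (h : n + 1 = a + b) {t x : ℂ}
    (ht : t ≠ 0) (hx : x ≠ 0) :
    phi n t ((((a : ℝ) / b : ℝ) : ℂ) * x / t ^ a) =
      n.choose a * T t a * (-((((a : ℝ) / b : ℝ) : ℂ) * x / t ^ a)) ^ a *
        (∑ m ∈ range b, (-1) ^ m * (kk a b m : ℂ) * T t m * x ^ m -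
          ∑ m ∈ range a, (-1) ^ m * (kk b a m : ℂ) * T t m * x⁻¹ ^ (m + 1)) := by
  have ha' : (0 : ℝ) < a := by exact_mod_cast ha
  have hb' : (0 : ℝ) < b := by exact_mod_cast hb
  set c : ℂ := (((a : ℝ) / b : ℝ) : ℂ) with hc
  have hc0 : c ≠ 0 := by
    rw [hc]
    exact Complex.ofReal_ne_zero.2 (by positivity)
  set u : ℂ := c * x / t ^ a with hu
  unfold phi
  rw [h, sum_range_add, mul_sub, add_comm, sub_eq_add_neg]
  congr 1
  · rw [mul_sum]
    refine sum_congr rfl fun m _ => ?_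
    have h1 : (n.choose (a + m) : ℂ) * c ^ m = n.choose a * kk a b m := by
      have := choose_up ha hb h m
      have h2 := congrArg (fun r : ℝ => (r : ℂ)) this
      rw [hc]
      push_cast at h2 ⊢
      exact h2
    rw [T_add, pow_add, neg_pow u m, hu, div_pow, mul_pow, ← pow_mul, ← hu]
    have h2 : t ^ (a * m) ≠ 0 := pow_ne_zero _ ht
    calc (n.choose (a + m) : ℂ) * (T t a * T t m * t ^ (a * m)) *
          ((-u) ^ a * ((-1) ^ m * (c ^ m * x ^ m / t ^ (a * m))))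
        = ((n.choose (a + m) : ℂ) * c ^ m) * T t a * T t m * (-u) ^ a * (-1) ^ m * x ^ m *
            (t ^ (a * m) / t ^ (a * m)) := by ring
      _ = _ := by rw [h1, div_self h2]; ring
  · rw [← sum_range_reflect, mul_sum, ← sum_neg_distrib]
    refine sum_congr rfl fun m hm => ?_
    have hm' := mem_range.1 hm
    obtain ⟨j, hj⟩ : ∃ j, j + 1 + m = a := ⟨a - 1 - m, by omega⟩
    rw [show a - 1 - m = j by omega]
    have h1 : (n.choose j : ℂ) * (c⁻¹) ^ (m + 1) = n.choose a * kk b a m := by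
      have := choose_down ha hb h hj
      have h2 := congrArg (fun r : ℝ => (r : ℂ)) this
      rw [hc]
      push_cast at h2 ⊢
      rw [inv_div]
      exact h2
    have h2 := T_sub t m j
    rw [hj] at h2
    have h3 : t ^ (a * (m + 1)) ≠ 0 := pow_ne_zero _ ht
    have h4 : (-u) ^ a = (-u) ^ j * ((-1) ^ (m + 1) * (c ^ (m + 1) * x ^ (m + 1) /
        t ^ (a * (m + 1)))) := by
      conv_lhs => rw [← hj, add_assoc, pow_add, add_comm 1 m, neg_pow u (m + 1), hu, div_pow,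
        mul_pow, ← pow_mul]
    have h5 : (-1 : ℂ) ^ m * (-1) ^ (m + 1) = -1 := by
      rw [pow_succ, ← mul_assoc, ← mul_pow]
      simp
    have hxm : x ^ (m + 1) * x⁻¹ ^ (m + 1) = 1 := by rw [← mul_pow, mul_inv_cancel₀ hx, one_pow]
    have hcm : c⁻¹ ^ (m + 1) * c ^ (m + 1) = 1 := by rw [← mul_pow, inv_mul_cancel₀ hc0, one_pow]
    symm
    calc -((n.choose a : ℂ) * T t a * (-u) ^ a * ((-1) ^ m * (kk b a m : ℂ) * T t m *
          x⁻¹ ^ (m + 1)))
        = -((n.choose a : ℂ) * kk b a m) * (T t a * T t m) * ((-1) ^ m * (-1) ^ (m + 1)) *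
            (x ^ (m + 1) * x⁻¹ ^ (m + 1)) * c ^ (m + 1) * (-u) ^ j / t ^ (a * (m + 1)) := by
          rw [h4]; ring
      _ = (n.choose j : ℂ) * (c⁻¹ ^ (m + 1) * c ^ (m + 1)) * T t j * (-u) ^ j *
            (t ^ (a * (m + 1)) / t ^ (a * (m + 1))) := by
          rw [← h2, ← h1, h5, hxm]; ring
      _ = (n.choose j : ℂ) * T t j * (-u) ^ j := by
          rw [hcm, div_self h3]; ring

/-- The map whose fixed points are the zeros. -/
noncomputable def Phi (a b : ℕ) (t x : ℂ) : ℂ :=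
  1 + ∑ m ∈ range (a + b), (-1) ^ m * T t (m + 1) *
    ((kk a b (m + 1) : ℂ) * x ^ (m + 2) - (kk b a (m + 1) : ℂ) * x⁻¹ ^ (m + 1))

theorem sub_Phi {a b : ℕ} (ha : 1 ≤ a) (hb : 1 ≤ b) {t x : ℂ} (hx : x ≠ 0) :
    x * (∑ m ∈ range b, (-1) ^ m * (kk a b m : ℂ) * T t m * x ^ m -
      ∑ m ∈ range a, (-1) ^ m * (kk b a m : ℂ) * T t m * x⁻¹ ^ (m + 1)) = x - Phi a b t x := by
  have h1 : ∑ m ∈ range b, (-1) ^ m * (kk a b m : ℂ) * T t m * x ^ m =
      ∑ m ∈ range (a + b + 1), (-1) ^ m * (kk a b m : ℂ) * T t m * x ^ m := by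
    refine sum_subset (range_subset_range.2 (by omega)) fun m _ hm => ?_
    rw [kk_eq_zero hb (by simpa using hm)]
    simp
  have h2 : ∑ m ∈ range a, (-1) ^ m * (kk b a m : ℂ) * T t m * x⁻¹ ^ (m + 1) =
      ∑ m ∈ range (a + b + 1), (-1) ^ m * (kk b a m : ℂ) * T t m * x⁻¹ ^ (m + 1) := by
    refine sum_subset (range_subset_range.2 (by omega)) fun m _ hm => ?_
    rw [kk_eq_zero ha (by simpa using hm)]
    simp
  rw [h1, h2, sum_range_succ', sum_range_succ', mul_sub, mul_add, mul_add, mul_sum, mul_sum]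
  unfold Phi
  simp only [kk_zero, T_zero, pow_zero, mul_one, Complex.ofReal_one, one_mul, zero_add, pow_one,
    mul_inv_cancel₀ hx]
  have h3 : ∑ m ∈ range (a + b), (-1) ^ m * T t (m + 1) *
      ((kk a b (m + 1) : ℂ) * x ^ (m + 2) - (kk b a (m + 1) : ℂ) * x⁻¹ ^ (m + 1)) =
      -(∑ m ∈ range (a + b), x * ((-1) ^ (m + 1) * (kk a b (m + 1) : ℂ) * T t (m + 1) *
        x ^ (m + 1))) + ∑ m ∈ range (a + b), x * ((-1) ^ (m + 1) * (kk b a (m + 1) : ℂ) *
        T t (m + 1) * x⁻¹ ^ (m + 1 + 1)) := by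
    rw [← sum_neg_distrib, ← sum_add_distrib]
    refine sum_congr rfl fun m _ => ?_
    have h4 : x * x⁻¹ ^ (m + 1 + 1) = x⁻¹ ^ (m + 1) := by
      rw [pow_succ x⁻¹ (m + 1), mul_comm, mul_assoc, inv_mul_cancel₀ hx, mul_one]
    rw [show x * ((-1) ^ (m + 1) * (kk b a (m + 1) : ℂ) * T t (m + 1) * x⁻¹ ^ (m + 1 + 1)) =
      (-1) ^ (m + 1) * (kk b a (m + 1) : ℂ) * T t (m + 1) * (x * x⁻¹ ^ (m + 1 + 1)) by ring, h4]
    ring
  rw [h3]
  ring

theorem phi_eq_zero_of_fixed {a b n : ℕ} (ha : 1 ≤ a) (hb : 1 ≤ b) (h : n + 1 = a + b) {t x : ℂ}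
    (ht : t ≠ 0) (hx : x ≠ 0) (hfix : Phi a b t x = x) :
    phi n t ((((a : ℝ) / b : ℝ) : ℂ) * x / t ^ a) = 0 := by
  rw [phi_local ha hb h ht hx]
  have h1 := sub_Phi ha hb (t := t) hx
  rw [hfix, sub_self] at h1
  rw [(mul_eq_zero.1 h1).resolve_left hx, mul_zero]

end Pool.Agent.Lib.MP_f76da2_an
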