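import Pool.Agent.Lib.MP_f76da2_an.Basic

/-!
# The real case

For real `t` with `0 < |t| < 1` the zeros of `phi n t` are `ρ_i t^(-(i+1))`, `i < n`, with
`0 < ρ_0 < ρ_1 < ... < ρ_(n-1)`: interlacing induction.
-/

set_option autoImplicit false

namespace Pool.Agent.Lib.MP_f76da2_an

open Finset

theorem ivt_sign (f : ℝ → ℝ) (hf : Continuous f) {a b s : ℝ} (hab : a < b) (ha : 0 < s * f a)
    (hb : s * f b < 0) : ∃ c, a < c ∧ c < b ∧ f c = 0 := by
  have h := intermediate_value_Ioo' (f := fun x => s * f x) hab.le (by fun_prop)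
  obtain ⟨c, hc, hc0⟩ := h (show (0 : ℝ) ∈ Set.Ioo (s * f b) (s * f a) from ⟨hb, ha⟩)
  have hs : s ≠ 0 := by
    rintro rfl
    simp at ha
  exact ⟨c, hc.1, hc.2, (mul_eq_zero.1 hc0).resolve_left hs⟩

section

variable {t : ℝ}

/-- The product of the linear factors, normalised at the index `i`. -/
noncomputable def A (t : ℝ) (ρ : ℕ → ℝ) (n : ℕ) (i : ℤ) (R : ℝ) : ℝ :=
  ∏ k ∈ range n, (1 - R * t ^ ((k : ℤ) - i) / ρ k)

/-- The sign. -/
noncomputable def sgi (t : ℝ) (i : ℕ) : ℝ := ∏ k ∈ range i, (-t ^ ((k : ℤ) - i))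

theorem phi_eq_A (ht0 : t ≠ 0) {ρ : ℕ → ℝ} {n : ℕ}
    (hprod : ∀ u, phi n t u = ∏ i ∈ range n, (1 - u * t ^ (i + 1) / ρ i)) (i : ℤ) (R : ℝ) :
    phi n t (R * t ^ (-i - 1)) = A t ρ n i R := by
  rw [hprod]
  unfold A
  refine prod_congr rfl fun k _ => ?_
  congr 2
  rw [mul_assoc, ← zpow_natCast, ← zpow_add₀ ht0]
  congr 2
  push_cast
  ring

theorem G_eq (ht0 : t ≠ 0) {ρ : ℕ → ℝ} {n : ℕ}
    (hprod : ∀ u, phi n t u = ∏ i ∈ range n, (1 - u * t ^ (i + 1) / ρ i)) (i : ℤ) (R : ℝ) :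
    phi (n + 1) t (R * t ^ (-i - 1)) = A t ρ n i R - R * t ^ (-i) * A t ρ n (i - 1) R := by
  rw [phi_succ, phi_eq_A ht0 hprod, ← phi_eq_A ht0 hprod (i - 1)]
  have h1 : t * (R * t ^ (-i - 1)) = R * t ^ (-i) := by
    rw [← mul_assoc, mul_comm t R, mul_assoc, ← zpow_one_add₀ ht0]
    congr 2
    ring
  rw [h1, show -(i - 1) - 1 = -i by ring]

theorem abs_lt_of_pos_exp (ht0 : t ≠ 0) (ht1 : |t| < 1) {e : ℤ} (he : 0 < e) : |t ^ e| < 1 := by
  rw [abs_zpow]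
  exact zpow_lt_one₀ (abs_pos.2 ht0) ht1 he

theorem abs_le_of_nonneg_exp (ht0 : t ≠ 0) (ht1 : |t| < 1) {e : ℤ} (he : 0 ≤ e) : |t ^ e| ≤ 1 := by
  rw [abs_zpow]
  exact zpow_le_one₀ (abs_pos.2 ht0) ht1.le he

theorem fac_pos_lower (ht0 : t ≠ 0) (ht1 : |t| < 1) {e : ℤ} (he : e < 0) {c : ℝ} (hc : 1 ≤ c) :
    0 < (-t ^ e) * (1 - c * t ^ e) := by
  have h1 : 1 < |t ^ e| := by
    rw [abs_zpow]
    exact one_lt_zpow_of_neg₀ (abs_pos.2 ht0) ht1 he
  have h2 : |t ^ e| * |t ^ e| = t ^ e * t ^ e := abs_mul_abs_self _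
  have h3 : t ^ e ≤ |t ^ e| := le_abs_self _
  nlinarith [mul_self_nonneg (t ^ e)]

theorem fac_pos_upper (ht0 : t ≠ 0) (ht1 : |t| < 1) {e : ℤ} (he : e < 0) {c : ℝ} (hc : 1 < c) :
    0 < t⁻¹ * (-t ^ e) * (1 - c * t ^ (e + 1)) := by
  have h1 : |t|⁻¹ ≤ |t ^ e| := by
    rw [abs_zpow, ← zpow_neg_one]
    exact zpow_le_zpow_right_of_le_one₀ (abs_pos.2 ht0) ht1.le (by omega)
  have h2 : |t ^ e| * |t ^ e| = t ^ e * t ^ e := abs_mul_abs_self _
  have h3 : t⁻¹ * t ^ e ≤ |t|⁻¹ * |t ^ e| := by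
    rw [← abs_inv, ← abs_mul]
    exact le_abs_self _
  have h4 : t⁻¹ * (-t ^ e) * (1 - c * t ^ (e + 1)) = c * (t ^ e * t ^ e) - t⁻¹ * t ^ e := by
    rw [zpow_add_one₀ ht0]
    field_simp
    ring
  rw [h4]
  have h5 : 0 < |t ^ e| := abs_pos.2 (zpow_ne_zero _ ht0)
  have h6 : |t|⁻¹ * |t ^ e| ≤ |t ^ e| * |t ^ e| := mul_le_mul_of_nonneg_right h1 h5.le
  have h7 : 0 < t ^ e * t ^ e := by rw [← h2]; positivity
  nlinarith

theorem fac_pos_small {x c : ℝ} (hx : |x| ≤ 1) (hc0 : 0 < c) (hc : c < 1) : 0 < 1 - c * x := by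
  have := (abs_le.1 hx).2
  nlinarith

theorem fac_pos_small' {x c : ℝ} (hx : |x| < 1) (hc0 : 0 < c) (hc : c ≤ 1) : 0 < 1 - c * x := by
  have := (abs_lt.1 hx).2
  nlinarith

/-- The sign at the lower test point. -/
theorem lower_sign (ht0 : t ≠ 0) (ht1 : |t| < 1) {ρ : ℕ → ℝ} {n : ℕ}
    (hpos : ∀ i < n, 0 < ρ i) (hmono : ∀ i j, i < j → j < n → ρ i < ρ j)
    (hprod : ∀ u, phi n t u = ∏ i ∈ range n, (1 - u * t ^ (i + 1) / ρ i)) {i : ℕ} (hi : i < n) :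
    0 < sgi t (i + 1) * phi (n + 1) t (ρ i * t ^ (-((i + 1 : ℕ) : ℤ) - 1)) := by
  rw [G_eq ht0 hprod]
  have h0 : A t ρ n (((i + 1 : ℕ) : ℤ) - 1) (ρ i) = 0 := by
    unfold A
    refine prod_eq_zero (mem_range.2 hi) ?_
    rw [show ((i : ℤ) - (((i + 1 : ℕ) : ℤ) - 1)) = 0 by push_cast; ring, zpow_zero, mul_one,
      div_self (hpos i hi).ne', sub_self]
  rw [h0, mul_zero, sub_zero]
  unfold sgi A
  rw [← prod_range_mul_prod_Ico _ (show i + 1 ≤ n by omega), ← mul_assoc, ← prod_mul_distrib]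
  refine mul_pos (prod_pos fun k hk => ?_) (prod_pos fun k hk => ?_)
  · have hk' := mem_range.1 hk
    have hρ : ρ k ≤ ρ i := by
      rcases Nat.lt_or_ge k i with h | h
      · exact (hmono k i h hi).le
      · rw [show k = i by omega]
    have h1 : 1 ≤ ρ i / ρ k := (one_le_div (hpos k (by omega))).2 hρ
    have := fac_pos_lower ht0 ht1 (e := (k : ℤ) - ((i + 1 : ℕ) : ℤ)) (by push_cast; omega) h1
    rwa [div_mul_eq_mul_div] at this
  · have hk' := mem_Ico.1 hk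
    have hρ : ρ i < ρ k := hmono i k (by omega) hk'.2
    have := fac_pos_small (abs_le_of_nonneg_exp ht0 ht1
      (e := (k : ℤ) - ((i + 1 : ℕ) : ℤ)) (by push_cast; omega))
      (div_pos (hpos i hi) (hpos k hk'.2)) ((div_lt_one (hpos k hk'.2)).2 hρ)
    rwa [div_mul_eq_mul_div] at this

theorem sgi_mul_zpow (ht0 : t ≠ 0) (i : ℕ) :
    sgi t i * t ^ (-(i : ℤ)) = ∏ k ∈ range i, (t⁻¹ * (-t ^ ((k : ℤ) - i))) := by
  unfold sgi
  rw [prod_mul_distrib, prod_const, card_range, zpow_neg, zpow_natCast, inv_pow, mul_comm]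

/-- The sign at the upper test point. -/
theorem upper_sign (ht0 : t ≠ 0) (ht1 : |t| < 1) {ρ : ℕ → ℝ} {n : ℕ}
    (hpos : ∀ i < n, 0 < ρ i) (hmono : ∀ i j, i < j → j < n → ρ i < ρ j)
    (hprod : ∀ u, phi n t u = ∏ i ∈ range n, (1 - u * t ^ (i + 1) / ρ i)) {i : ℕ} (hi : i < n) :
    sgi t i * phi (n + 1) t (ρ i * t ^ (-(i : ℤ) - 1)) < 0 := by
  rw [G_eq ht0 hprod]
  have h0 : A t ρ n (i : ℤ) (ρ i) = 0 := by
    unfold A
    refine prod_eq_zero (mem_range.2 hi) ?_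
    rw [sub_self, zpow_zero, mul_one, div_self (hpos i hi).ne', sub_self]
  rw [h0, zero_sub]
  have h1 : sgi t i * -(ρ i * t ^ (-(i : ℤ)) * A t ρ n ((i : ℤ) - 1) (ρ i)) =
      -(ρ i * ((sgi t i * t ^ (-(i : ℤ))) * A t ρ n ((i : ℤ) - 1) (ρ i))) := by ring
  rw [h1, neg_lt_zero]
  refine mul_pos (hpos i hi) ?_
  rw [sgi_mul_zpow ht0]
  unfold A
  rw [← prod_range_mul_prod_Ico _ (show i ≤ n by omega), ← mul_assoc, ← prod_mul_distrib]
  refine mul_pos (prod_pos fun k hk => ?_) (prod_pos fun k hk => ?_)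
  · have hk' := mem_range.1 hk
    have hρ : ρ k < ρ i := hmono k i hk' hi
    have h1 : 1 < ρ i / ρ k := (one_lt_div (hpos k (by omega))).2 hρ
    have := fac_pos_upper ht0 ht1 (e := (k : ℤ) - (i : ℤ)) (by omega) h1
    rw [div_mul_eq_mul_div] at this
    rwa [show (k : ℤ) - ((i : ℤ) - 1) = (k : ℤ) - i + 1 by ring]
  · have hk' := mem_Ico.1 hk
    have hρ : ρ i ≤ ρ k := by
      rcases Nat.lt_or_ge i k with h | h
      · exact (hmono i k h hk'.2).le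
      · rw [show k = i by omega]
    have := fac_pos_small' (abs_lt_of_pos_exp ht0 ht1
      (e := (k : ℤ) - ((i : ℤ) - 1)) (by omega))
      (div_pos (hpos i hi) (hpos k hk'.2)) ((div_le_one (hpos k hk'.2)).2 hρ)
    rwa [div_mul_eq_mul_div] at this

open Filter in
/-- The sign at infinity. -/
theorem exists_large (ht0 : t ≠ 0) {ρ : ℕ → ℝ} {n : ℕ}
    (hpos : ∀ i < n, 0 < ρ i)
    (hprod : ∀ u, phi n t u = ∏ i ∈ range n, (1 - u * t ^ (i + 1) / ρ i)) (B : ℝ) :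
    ∃ M, B < M ∧ sgi t n * phi (n + 1) t (M * t ^ (-(n : ℤ) - 1)) < 0 := by
  have hev : ∀ᶠ M : ℝ in atTop, ∀ k ∈ range n,
      2 * (|t ^ ((k : ℤ) - n)| + |t⁻¹ * t ^ ((k : ℤ) - n)|) * ρ k <
        M * (t ^ ((k : ℤ) - n) * t ^ ((k : ℤ) - n)) := by
    rw [eventually_all_finset]
    intro k hk
    have h1 : 0 < t ^ ((k : ℤ) - n) * t ^ ((k : ℤ) - n) :=
      mul_self_pos.2 (zpow_ne_zero _ ht0)
    exact (tendsto_id.atTop_mul_const h1).eventually_gt_atTop _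
  obtain ⟨M, ⟨hM1, hM2⟩, hM3⟩ :=
    ((hev.and (eventually_gt_atTop ((3 : ℝ) ^ n))).and (eventually_gt_atTop B)).exists
  refine ⟨M, hM3, ?_⟩
  rw [G_eq ht0 hprod]
  have hM0 : 0 < M := lt_trans (by positivity) hM2
  have h1 : sgi t n * (A t ρ n n M - M * t ^ (-(n : ℤ)) * A t ρ n ((n : ℤ) - 1) M) =
      sgi t n * A t ρ n n M - M * ((sgi t n * t ^ (-(n : ℤ))) * A t ρ n ((n : ℤ) - 1) M) := by ring
  rw [h1, sgi_mul_zpow ht0]
  unfold sgi A
  rw [← prod_mul_distrib, ← prod_mul_distrib]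
  have hf : ∀ k ∈ range n,
      0 < t⁻¹ * -t ^ ((k : ℤ) - n) * (1 - M * t ^ ((k : ℤ) - ((n : ℤ) - 1)) / ρ k) ∧
      0 ≤ -t ^ ((k : ℤ) - n) * (1 - M * t ^ ((k : ℤ) - n) / ρ k) ∧
      -t ^ ((k : ℤ) - n) * (1 - M * t ^ ((k : ℤ) - n) / ρ k) ≤
      3 * (t⁻¹ * -t ^ ((k : ℤ) - n) * (1 - M * t ^ ((k : ℤ) - ((n : ℤ) - 1)) / ρ k)) := by
    intro k hk
    have hρ := hpos k (mem_range.1 hk)
    have h2 := hM1 k hk
    have h3 : -t ^ ((k : ℤ) - n) * (1 - M * t ^ ((k : ℤ) - n) / ρ k) =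
        M * (t ^ ((k : ℤ) - n) * t ^ ((k : ℤ) - n)) / ρ k - t ^ ((k : ℤ) - n) := by ring
    have h4 : t⁻¹ * -t ^ ((k : ℤ) - n) * (1 - M * t ^ ((k : ℤ) - ((n : ℤ) - 1)) / ρ k) =
        M * (t ^ ((k : ℤ) - n) * t ^ ((k : ℤ) - n)) / ρ k - t⁻¹ * t ^ ((k : ℤ) - n) := by
      rw [show (k : ℤ) - ((n : ℤ) - 1) = (k : ℤ) - n + 1 by ring, zpow_add_one₀ ht0]
      field_simp
      ring
    rw [h3, h4]
    have h5 : 2 * (|t ^ ((k : ℤ) - n)| + |t⁻¹ * t ^ ((k : ℤ) - n)|) <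
        M * (t ^ ((k : ℤ) - n) * t ^ ((k : ℤ) - n)) / ρ k := by
      rwa [lt_div_iff₀ hρ]
    have h6 := le_abs_self (t ^ ((k : ℤ) - n))
    have h7 := neg_abs_le (t ^ ((k : ℤ) - n))
    have h8 := le_abs_self (t⁻¹ * t ^ ((k : ℤ) - n))
    have h9 := neg_abs_le (t⁻¹ * t ^ ((k : ℤ) - n))
    have h10 := abs_nonneg (t ^ ((k : ℤ) - n))
    have h11 := abs_nonneg (t⁻¹ * t ^ ((k : ℤ) - n))
    refine ⟨by linarith, by linarith, by linarith⟩
  have h2 : ∏ k ∈ range n, (-t ^ ((k : ℤ) - n) * (1 - M * t ^ ((k : ℤ) - n) / ρ k)) ≤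
      ∏ k ∈ range n,
        3 * (t⁻¹ * -t ^ ((k : ℤ) - n) * (1 - M * t ^ ((k : ℤ) - ((n : ℤ) - 1)) / ρ k)) :=
    prod_le_prod (fun k hk => (hf k hk).2.1) fun k hk => (hf k hk).2.2
  rw [prod_mul_distrib (f := fun _ => (3 : ℝ)), prod_const, card_range] at h2
  have h3 : 0 < ∏ k ∈ range n,
      (t⁻¹ * -t ^ ((k : ℤ) - n) * (1 - M * t ^ ((k : ℤ) - ((n : ℤ) - 1)) / ρ k)) :=
    prod_pos fun k hk => (hf k hk).1
  nlinarith

/-- **The real case.** -/
theorem real_roots (ht0 : t ≠ 0) (ht1 : |t| < 1) (n : ℕ) : ∃ ρ : ℕ → ℝ,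
    (∀ i < n, 0 < ρ i) ∧ (∀ i j, i < j → j < n → ρ i < ρ j) ∧
      ∀ u, phi n t u = ∏ i ∈ range n, (1 - u * t ^ (i + 1) / ρ i) := by
  induction n with
  | zero => exact ⟨fun _ => 1, by simp, by simp, fun u => by simp [phi_zero]⟩
  | succ n ih =>
    obtain ⟨ρ, hpos, hmono, hprod⟩ := ih
    obtain ⟨M, hM1, hM2⟩ := exists_large ht0 hpos hprod (if n = 0 then 0 else ρ (n - 1))
    set P : ℕ → ℝ := fun i => if i = 0 then 0 else if i ≤ n then ρ (i - 1) else M with hP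
    have hP0 : P 0 = 0 := by simp [hP]
    have hPs : ∀ i < n, P (i + 1) = ρ i := by
      intro i hi
      simp [hP, show i + 1 ≤ n by omega]
    have hPn : P (n + 1) = M := by simp [hP]
    have hlow : ∀ i ≤ n, 0 < sgi t i * phi (n + 1) t (P i * t ^ (-(i : ℤ) - 1)) := by
      intro i hi
      rcases Nat.eq_zero_or_pos i with rfl | h
      · rw [hP0, zero_mul, phi_at_zero]
        simp [sgi]
      · obtain ⟨j, rfl⟩ : ∃ j, i = j + 1 := ⟨i - 1, by omega⟩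
        rw [hPs j (by omega)]
        exact lower_sign ht0 ht1 hpos hmono hprod (by omega)
    have hup : ∀ i ≤ n, sgi t i * phi (n + 1) t (P (i + 1) * t ^ (-(i : ℤ) - 1)) < 0 := by
      intro i hi
      rcases Nat.lt_or_ge i n with h | h
      · rw [hPs i h]
        exact upper_sign ht0 ht1 hpos hmono hprod h
      · obtain rfl : i = n := by omega
        rw [hPn]
        exact hM2
    have hPlt : ∀ i ≤ n, P i < P (i + 1) := by
      intro i hi
      rcases Nat.lt_or_ge i n with h | h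
      · rw [hPs i h]
        rcases Nat.eq_zero_or_pos i with rfl | h0
        · rw [hP0]; exact hpos 0 h
        · obtain ⟨j, rfl⟩ : ∃ j, i = j + 1 := ⟨i - 1, by omega⟩
          rw [hPs j (by omega)]
          exact hmono j (j + 1) (by omega) h
      · obtain rfl : i = n := by omega
        rw [hPn]
        rcases Nat.eq_zero_or_pos i with rfl | h0
        · rw [hP0]; simpa using hM1
        · obtain ⟨j, rfl⟩ : ∃ j, i = j + 1 := ⟨i - 1, by omega⟩
          rw [hPs j (by omega)]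
          simpa using hM1
    have hcont : ∀ i : ℕ, Continuous fun R : ℝ => phi (n + 1) t (R * t ^ (-(i : ℤ) - 1)) := by
      intro i
      unfold phi
      fun_prop
    have hex : ∀ i : ℕ, ∃ c, i ≤ n → P i < c ∧ c < P (i + 1) ∧
        phi (n + 1) t (c * t ^ (-(i : ℤ) - 1)) = 0 := by
      intro i
      by_cases hi : i ≤ n
      · obtain ⟨c, h1, h2, h3⟩ := ivt_sign _ (hcont i) (hPlt i hi) (hlow i hi) (hup i hi)
        exact ⟨c, fun _ => ⟨h1, h2, h3⟩⟩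
      · exact ⟨0, fun h => absurd h hi⟩
    choose c hc using hex
    have hPmono : ∀ i j, i ≤ j → j ≤ n + 1 → P i ≤ P j := by
      intro i j hij
      induction j, hij using Nat.le_induction with
      | base => intro _; exact le_rfl
      | succ j hj ihj => intro h; exact (ihj (by omega)).trans (hPlt j (by omega)).le
    have hcpos : ∀ i < n + 1, 0 < c i := by
      intro i hi
      have h1 := (hc i (by omega)).1
      have h2 := hPmono 0 i (by omega) (by omega)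
      rw [hP0] at h2
      linarith
    have hcmono : ∀ i j, i < j → j < n + 1 → c i < c j := by
      intro i j hij hj
      have h1 := (hc i (by omega)).2.1
      have h2 := hPmono (i + 1) j (by omega) (by omega)
      have h3 := (hc j (by omega)).1
      linarith
    refine ⟨c, hcpos, hcmono, fun u => ?_⟩
    rw [← phiPoly_eval, prod_form (phiPoly (n + 1) t) (n + 1) (phiPoly_natDegree _ _)
      (by rw [phiPoly_eval, phi_at_zero]) (fun i => c i * t ^ (-(i : ℤ) - 1)) ?_ ?_ ?_ u]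
    · refine prod_congr rfl fun i _ => ?_
      congr 1
      rw [show (-(i : ℤ) - 1) = -((i + 1 : ℕ) : ℤ) by push_cast; ring, zpow_neg, zpow_natCast]
      field_simp
    · intro i hi
      exact mul_ne_zero (hcpos i hi).ne' (zpow_ne_zero _ ht0)
    · have key : ∀ i j, i < j → j < n + 1 →
          |c i * t ^ (-(i : ℤ) - 1)| < |c j * t ^ (-(j : ℤ) - 1)| := by
        intro i j hij hj
        rw [abs_mul, abs_mul, abs_of_pos (hcpos i (by omega)), abs_of_pos (hcpos j hj), abs_zpow,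
          abs_zpow]
        have h1 : |t| ^ (-(i : ℤ) - 1) ≤ |t| ^ (-(j : ℤ) - 1) :=
          zpow_le_zpow_right_of_le_one₀ (abs_pos.2 ht0) ht1.le (by omega)
        have h2 : 0 < |t| ^ (-(i : ℤ) - 1) := zpow_pos (abs_pos.2 ht0) _
        exact mul_lt_mul (hcmono i j hij hj) h1 h2 (hcpos j hj).le
      intro i hi j hj hij
      by_contra hne
      rcases Nat.lt_or_gt_of_ne hne with h | h
      · exact absurd (congrArg abs hij) (key i j h hj).ne
      · exact absurd (congrArg abs hij) (key j i h hi).ne'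
    · intro i hi
      rw [phiPoly_eval]
      exact (hc i (by omega)).2.2

end

end Pool.Agent.Lib.MP_f76da2_an
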